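import Pool.Agent.helper68.Poly.Main

set_option autoImplicit false

/-!
# Consequences of the splitting inequality (helper68, MP_d35578_co)
-/

open Finset Filter Topology

namespace Pool.Agent.helper68.Poly

/-- pairs `(k, n - k)` inside a square -/
theorem sum_pairs {x : ℕ → ℝ} (hx : ∀ n, 0 ≤ x n) {r N₀ N : ℕ} (hr : 1 ≤ r) :
    ∑ n ∈ Finset.Ioc N₀ (N + 1), ∑ k ∈ Finset.Icc r (n / 2), x k * x (n - k) ≤
      (∑ k ∈ Finset.Icc r N, x k) ^ 2 := by
  classical
  rw [sq, Finset.sum_mul_sum, ← Finset.sum_product', Finset.sum_sigma']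
  have hinj : Set.InjOn (fun p : Sigma fun _ : ℕ => ℕ => (p.2, p.1 - p.2))
      ((Finset.Ioc N₀ (N + 1)).sigma fun n => Finset.Icc r (n / 2) :
        Finset (Sigma fun _ : ℕ => ℕ)) := by
    rintro ⟨n, k⟩ h ⟨n', k'⟩ h' e
    rw [Finset.mem_coe, Finset.mem_sigma, Finset.mem_Ioc, Finset.mem_Icc] at h h'
    simp only [Prod.mk.injEq] at e h h'
    obtain ⟨rfl, e2⟩ := e
    have : n = n' := by omega
    subst this
    rfl
  have h1 : ∑ p ∈ (Finset.Ioc N₀ (N + 1)).sigma (fun n => Finset.Icc r (n / 2)),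
      x p.2 * x (p.1 - p.2) = ∑ q ∈ ((Finset.Ioc N₀ (N + 1)).sigma
        (fun n => Finset.Icc r (n / 2))).image (fun p => (p.2, p.1 - p.2)), x q.1 * x q.2 := by
    rw [Finset.sum_image hinj]
  rw [h1]
  refine Finset.sum_le_sum_of_subset_of_nonneg ?_ fun q _ _ => mul_nonneg (hx _) (hx _)
  intro q hq
  rw [Finset.mem_image] at hq
  obtain ⟨⟨n, k⟩, hp, rfl⟩ := hq
  rw [Finset.mem_sigma, Finset.mem_Ioc, Finset.mem_Icc] at hp
  rw [Finset.mem_product, Finset.mem_Icc, Finset.mem_Icc]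
  simp only at hp ⊢
  omega

/-- a small window sum stays small for ever -/
theorem window_bounded {x : ℕ → ℝ} (hx : ∀ n, 0 ≤ x n) {r N₀ : ℕ} (hr : 1 ≤ r)
    (hrec : ∀ n, N₀ < n → x n ≤ 64 * ∑ k ∈ Finset.Icc r (n / 2), x k * x (n - k))
    (hs : ∑ k ∈ Finset.Icc r N₀, x k ≤ 1 / 256) (N : ℕ) :
    ∑ k ∈ Finset.Icc r N, x k ≤ 1 / 128 := by
  classical
  induction N with
  | zero =>
    have : Finset.Icc r 0 = ∅ := Finset.Icc_eq_empty (by omega)
    rw [this, Finset.sum_empty]
    norm_num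
  | succ N ih =>
    have hsub : Finset.Icc r (N + 1) ⊆ Finset.Icc r N₀ ∪ Finset.Ioc N₀ (N + 1) := by
      intro k hk
      rw [Finset.mem_union, Finset.mem_Icc, Finset.mem_Ioc]
      rw [Finset.mem_Icc] at hk
      omega
    have h1 : ∑ k ∈ Finset.Icc r (N + 1), x k ≤
        ∑ k ∈ Finset.Icc r N₀, x k + ∑ k ∈ Finset.Ioc N₀ (N + 1), x k := by
      refine (Finset.sum_le_sum_of_subset_of_nonneg hsub fun k _ _ => hx k).trans ?_
      have h2 := Finset.sum_union_inter (s₁ := Finset.Icc r N₀) (s₂ := Finset.Ioc N₀ (N + 1))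
        (f := x)
      have h3 : 0 ≤ ∑ k ∈ Finset.Icc r N₀ ∩ Finset.Ioc N₀ (N + 1), x k :=
        Finset.sum_nonneg fun k _ => hx k
      linarith
    have h2 : ∑ k ∈ Finset.Ioc N₀ (N + 1), x k ≤ 64 * (∑ k ∈ Finset.Icc r N, x k) ^ 2 := by
      refine le_trans (Finset.sum_le_sum fun n hn => hrec n (Finset.mem_Ioc.mp hn).1) ?_
      rw [← Finset.mul_sum]
      exact mul_le_mul_of_nonneg_left (sum_pairs hx hr) (by norm_num)
    have h3 : 0 ≤ ∑ k ∈ Finset.Icc r N, x k := Finset.sum_nonneg fun k _ => hx k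
    nlinarith

/-- the straight polyomino -/
noncomputable def line (n : ℕ) : Finset (ℤ × ℤ) := (Finset.range n).image fun i : ℕ => ((i : ℤ), (0 : ℤ))

theorem mem_line {n : ℕ} {p : ℤ × ℤ} : p ∈ line n ↔ 0 ≤ p.1 ∧ p.1 < n ∧ p.2 = 0 := by
  unfold line
  rw [Finset.mem_image]
  constructor
  · rintro ⟨i, hi, rfl⟩
    rw [Finset.mem_range] at hi
    refine ⟨?_, ?_, rfl⟩
    · change (0 : ℤ) ≤ (i : ℤ)
      omega
    · change (i : ℤ) < (n : ℤ)
      omega
  · rintro ⟨h1, h2, h3⟩
    refine ⟨p.1.toNat, ?_, ?_⟩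
    · rw [Finset.mem_range]
      omega
    · ext
      · simp only
        omega
      · simp only
        omega

theorem A_pos {n : ℕ} (hn : 1 ≤ n) : 1 ≤ A n := by
  classical
  unfold A
  refine Finset.card_pos.mpr ⟨line n, ?_⟩
  rw [mem_AL_self]
  have hT : RT (line n) 0 (fun p => (p.1 - 1, 0)) (fun p => p.1.toNat) := by
    refine ⟨mem_line.mpr ⟨le_rfl, by simpa using by omega, rfl⟩, rfl, ?_⟩
    intro v hv hne
    rw [mem_line] at hv
    have h1 : v.1 ≠ 0 := by
      intro h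
      apply hne
      ext
      · exact h
      · exact hv.2.2
    refine ⟨mem_line.mpr ⟨?_, ?_, rfl⟩, ?_, ?_⟩
    · simp only; omega
    · simp only; omega
    · unfold Nb
      simp only [hv.2.2]
      norm_num
    · simp only; omega
  refine ⟨?_, hT.ho, hT.conn⟩
  unfold line
  rw [Finset.card_image_of_injective _ (fun i j h => by simpa using h), Finset.card_range]

/-- the number of polyominoes -/
noncomputable def B (n : ℕ) : ℝ := (A n : ℝ) / n

theorem B_pos {n : ℕ} (hn : 1 ≤ n) : 0 < B n := by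
  unfold B
  have h1 : (1 : ℝ) ≤ A n := by exact_mod_cast A_pos hn
  have h2 : (1 : ℝ) ≤ n := by exact_mod_cast hn
  positivity

theorem n_mul_B {n : ℕ} (hn : 1 ≤ n) : (n : ℝ) * B n = A n := by
  unfold B
  have h2 : (n : ℝ) ≠ 0 := by positivity
  field_simp

/-- if the growth constant is `α` the window sums are bounded below -/
theorem window_lower {α : ℝ}
    (hα : Tendsto (fun n : ℕ => B n ^ ((1 : ℝ) / n)) atTop (𝓝 α)) {r : ℕ} (hr : 1 ≤ r) :
    0 < α ∧ 1 / 256 ≤ ∑ n ∈ Finset.Icc r (128 * r ^ 2), (A n : ℝ) / α ^ n := by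
  classical
  have hpos : 1 ≤ α := by
    have h1 : Tendsto (fun n : ℕ => ((n : ℝ) ^ ((1 : ℝ) / n))⁻¹) atTop (𝓝 1) := by
      have h2 : Tendsto (fun n : ℕ => (n : ℝ) ^ ((1 : ℝ) / n)) atTop (𝓝 1) :=
        tendsto_rpow_div.comp tendsto_natCast_atTop_atTop
      simpa using h2.inv₀ one_ne_zero
    refine le_of_tendsto_of_tendsto h1 hα ?_
    filter_upwards [eventually_ge_atTop 1] with n hn
    rw [← Real.inv_rpow (by positivity)]
    refine Real.rpow_le_rpow (by positivity) ?_ (by positivity)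
    unfold B
    rw [inv_eq_one_div]
    have h1 : (1 : ℝ) ≤ A n := by exact_mod_cast A_pos hn
    exact div_le_div_of_nonneg_right h1 (by positivity)
  have hα0 : 0 < α := by linarith
  refine ⟨hα0, ?_⟩
  by_contra hcon
  rw [not_le] at hcon
  -- a slightly larger base
  have hcont : Tendsto (fun t : ℝ => ∑ n ∈ Finset.Icc r (128 * r ^ 2), (A n : ℝ) * (t / α) ^ n)
      (𝓝[>] 1) (𝓝 (∑ n ∈ Finset.Icc r (128 * r ^ 2), (A n : ℝ) * (1 / α) ^ n)) := by
    refine Tendsto.mono_left ?_ nhdsWithin_le_nhds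
    have : Continuous (fun t : ℝ => ∑ n ∈ Finset.Icc r (128 * r ^ 2), (A n : ℝ) * (t / α) ^ n) := by
      fun_prop
    exact this.tendsto 1
  have e1 : ∑ n ∈ Finset.Icc r (128 * r ^ 2), (A n : ℝ) * (1 / α) ^ n =
      ∑ n ∈ Finset.Icc r (128 * r ^ 2), (A n : ℝ) / α ^ n := by
    refine Finset.sum_congr rfl fun n _ => ?_
    rw [div_pow, one_pow, mul_one_div]
  rw [e1] at hcont
  have hev := hcont.eventually (gt_mem_nhds hcon)
  obtain ⟨t, ht, ht1⟩ := (hev.and self_mem_nhdsWithin).exists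
  have ht1 : (1 : ℝ) < t := ht1
  have ht0 : 0 < t := by linarith
  have hq : 0 < t / α := by positivity
  have hb := window_bounded (x := fun n => (A n : ℝ) * (t / α) ^ n) (fun n => by positivity) hr
    (N₀ := 128 * r ^ 2) (fun n hn => by
      have h1 := main_ineq' (n := n) hr hn.le
      have h2 : (A n : ℝ) ≤ 64 * M r n := by exact_mod_cast h1
      calc (A n : ℝ) * (t / α) ^ n ≤ (64 * M r n) * (t / α) ^ n :=
            mul_le_mul_of_nonneg_right h2 (by positivity)
        _ = 64 * ∑ k ∈ Finset.Icc r (n / 2), ((A k : ℝ) * (t / α) ^ k) *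
              ((A (n - k) : ℝ) * (t / α) ^ (n - k)) := by
            unfold M
            push_cast
            rw [mul_assoc, Finset.sum_mul]
            congr 1
            refine Finset.sum_congr rfl fun k hk => ?_
            rw [Finset.mem_Icc] at hk
            have e : (t / α) ^ n = (t / α) ^ k * (t / α) ^ (n - k) := by
              rw [← pow_add]
              congr 1
              omega
            rw [e]
            ring) ht.le
  -- all terms are small
  have hle : ∀ n : ℕ, r ≤ n → B n ≤ (α / t) ^ n := by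
    intro n hn
    have h1 : (A n : ℝ) * (t / α) ^ n ≤ 1 / 128 := by
      refine le_trans ?_ (hb n)
      exact Finset.single_le_sum (f := fun n => (A n : ℝ) * (t / α) ^ n)
        (fun k _ => by positivity) (Finset.mem_Icc.mpr ⟨hn, le_rfl⟩)
    have h2 : (A n : ℝ) * (t / α) ^ n ≤ 1 := by linarith
    have h3 : (t / α) ^ n * (α / t) ^ n = 1 := by
      rw [← mul_pow, div_mul_div_comm, mul_comm t α, div_self (by positivity), one_pow]
    have h4 : (A n : ℝ) ≤ (α / t) ^ n := by
      have h5 : 0 < (α / t) ^ n := by positivity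
      calc (A n : ℝ) = ((A n : ℝ) * (t / α) ^ n) * (α / t) ^ n := by rw [mul_assoc, h3, mul_one]
        _ ≤ 1 * (α / t) ^ n := mul_le_mul_of_nonneg_right h2 h5.le
        _ = _ := one_mul _
    have h6 : (1 : ℝ) ≤ n := by exact_mod_cast hr.trans hn
    unfold B
    refine le_trans ?_ h4
    exact div_le_self (by positivity) h6
  have hlim : α ≤ α / t := by
    refine le_of_tendsto hα ?_
    filter_upwards [eventually_ge_atTop r, eventually_ge_atTop 1] with n hn hn1
    have h7 : 0 < α / t := by positivity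
    calc B n ^ ((1 : ℝ) / n) ≤ ((α / t) ^ n) ^ ((1 : ℝ) / n) :=
          Real.rpow_le_rpow (B_pos hn1).le (hle n hn) (by positivity)
      _ = α / t := by
          rw [← Real.rpow_natCast, ← Real.rpow_mul h7.le]
          have : (n : ℝ) * (1 / n) = 1 := by field_simp
          rw [this, Real.rpow_one]
  rw [le_div_iff₀ ht0] at hlim
  nlinarith

end Pool.Agent.helper68.Poly
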