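import Pool.Agent.helper68.Poly.Cut

set_option autoImplicit false

/-!
# The splitting inequality for polyominoes (helper68, MP_d35578_co)
-/

open Finset

namespace Pool.Agent.helper68.Poly

variable {S : Finset (ℤ × ℤ)} {o : ℤ × ℤ} {par : ℤ × ℤ → ℤ × ℤ} {d : ℤ × ℤ → ℕ}

/-- translate -/
def sh (t : ℤ × ℤ) (S : Finset (ℤ × ℤ)) : Finset (ℤ × ℤ) := S.map (addRightEmbedding t)

theorem mem_sh {t p : ℤ × ℤ} {S : Finset (ℤ × ℤ)} : p ∈ sh t S ↔ p - t ∈ S := by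
  unfold sh
  rw [Finset.mem_map]
  constructor
  · rintro ⟨q, hq, rfl⟩
    simpa using hq
  · intro h
    exact ⟨p - t, h, by simp⟩

theorem card_sh (t : ℤ × ℤ) (S : Finset (ℤ × ℤ)) : (sh t S).card = S.card := Finset.card_map _

theorem sh_sh (s t : ℤ × ℤ) (S : Finset (ℤ × ℤ)) : sh t (sh s S) = sh (s + t) S := by
  ext p
  rw [mem_sh, mem_sh, mem_sh, sub_sub, add_comm t s]

theorem sh_zero (S : Finset (ℤ × ℤ)) : sh 0 S = S := by
  ext p
  rw [mem_sh, sub_zero]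

theorem sh_union (t : ℤ × ℤ) (S S' : Finset (ℤ × ℤ)) : sh t (S ∪ S') = sh t S ∪ sh t S' := by
  ext p
  rw [mem_sh, Finset.mem_union, Finset.mem_union, mem_sh, mem_sh]

theorem nd_sh (t p q : ℤ × ℤ) : nd (p - t) (q - t) = nd p q := by
  unfold nd
  simp

theorem Conn.nonempty (h : Conn S) : S.Nonempty := by
  obtain ⟨⟨x, hx⟩⟩ := SimpleGraph.Connected.nonempty h
  exact ⟨x, hx⟩

theorem RT.sh (T : RT S o par d) (t : ℤ × ℤ) :
    RT (sh t S) (o + t) (fun p => par (p - t) + t) (fun p => d (p - t)) := by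
  refine ⟨mem_sh.mpr (by simpa using T.ho), by simpa using T.h0, ?_⟩
  intro v hv hne
  rw [mem_sh] at hv
  have h1 : v - t ≠ o := fun e => hne (by rw [← e]; simp)
  obtain ⟨h2, h3, h4⟩ := T.hp _ hv h1
  refine ⟨mem_sh.mpr (by simpa using h2), ?_, ?_⟩
  · unfold Nb at h3 ⊢
    simp only [Prod.fst_add, Prod.snd_add, Prod.fst_sub, Prod.snd_sub] at h3 ⊢
    rw [← h3]
    congr 2 <;> ring
  · simpa using h4

theorem Conn.sh (h : Conn S) (t : ℤ × ℤ) : Conn (sh t S) := by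
  obtain ⟨x, hx⟩ := h.nonempty
  obtain ⟨par, d, T⟩ := h.exists_RT hx
  exact (T.sh t).conn

theorem Conn.nd_le (h : Conn S) {p q : ℤ × ℤ} (hp : p ∈ S) (hq : q ∈ S) : nd p q + 1 ≤ S.card := by
  obtain ⟨par, d, T⟩ := h.exists_RT hp
  exact T.card_ge hq

open Classical in
/-- connected sets with `n` cells containing the origin, of diameter at most `L` -/
noncomputable def AL (n L : ℕ) : Finset (Finset (ℤ × ℤ)) :=
  ((box 0 n).powersetCard n).filter fun S =>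
    (0 : ℤ × ℤ) ∈ S ∧ Conn S ∧ ∀ p ∈ S, ∀ q ∈ S, nd p q ≤ L

theorem mem_AL {n L : ℕ} {S : Finset (ℤ × ℤ)} : S ∈ AL n L ↔
    S.card = n ∧ (0 : ℤ × ℤ) ∈ S ∧ Conn S ∧ ∀ p ∈ S, ∀ q ∈ S, nd p q ≤ L := by
  classical
  unfold AL
  rw [Finset.mem_filter, Finset.mem_powersetCard]
  constructor
  · rintro ⟨⟨_, h1⟩, h2⟩
    exact ⟨h1, h2⟩
  · rintro ⟨h1, h2, h3, h4⟩
    refine ⟨⟨?_, h1⟩, h2, h3, h4⟩
    intro p hp
    rw [mem_box]
    have := h3.nd_le h2 hp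
    omega

theorem mem_AL_self {n : ℕ} {S : Finset (ℤ × ℤ)} : S ∈ AL n n ↔
    S.card = n ∧ (0 : ℤ × ℤ) ∈ S ∧ Conn S := by
  rw [mem_AL]
  constructor
  · rintro ⟨h1, h2, h3, _⟩
    exact ⟨h1, h2, h3⟩
  · rintro ⟨h1, h2, h3⟩
    refine ⟨h1, h2, h3, fun p hp q hq => ?_⟩
    have := h3.nd_le hp hq
    omega

/-- `m` is the lexicographically smallest cell -/
def LM (m : ℤ × ℤ) (S : Finset (ℤ × ℤ)) : Prop :=
  m ∈ S ∧ ∀ p ∈ S, m.1 < p.1 ∨ (m.1 = p.1 ∧ m.2 ≤ p.2)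

theorem exists_LM (h : S.Nonempty) : ∃ m, LM m S := by
  obtain ⟨m, hm, hmin⟩ := Finset.exists_min_image S (fun p => toLex p) h
  refine ⟨m, hm, fun p hp => ?_⟩
  have := hmin p hp
  rw [Prod.Lex.toLex_le_toLex] at this
  exact this

theorem LM.sh {m : ℤ × ℤ} (h : LM m S) (t : ℤ × ℤ) : LM (m + t) (sh t S) := by
  refine ⟨mem_sh.mpr (by simpa using h.1), fun p hp => ?_⟩
  have := h.2 _ (mem_sh.mp hp)
  simp only [Prod.fst_sub, Prod.snd_sub, Prod.fst_add, Prod.snd_add] at this ⊢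
  omega

theorem LM.unique {m m' : ℤ × ℤ} (h : LM m S) (h' : LM m' S) : m = m' := by
  have h1 := h.2 _ h'.1
  have h2 := h'.2 _ h.1
  ext <;> omega

open Classical in
/-- one representative of every translation class -/
noncomputable def BL (n L : ℕ) : Finset (Finset (ℤ × ℤ)) := (AL n L).filter fun S => LM 0 S

theorem mem_BL {n L : ℕ} {S : Finset (ℤ × ℤ)} : S ∈ BL n L ↔ S ∈ AL n L ∧ LM 0 S := by
  classical
  unfold BL
  rw [Finset.mem_filter]

theorem card_AL_le (n L : ℕ) : (AL n L).card ≤ n * (BL n L).card := by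
  classical
  have hex : ∀ S ∈ AL n L, ∃ m, LM m S := fun S hS => exists_LM ⟨0, (mem_AL.mp hS).2.1⟩
  choose! m hm using hex
  have h1 : (AL n L).card ≤ ((BL n L).sigma fun R => R).card := by
    apply Finset.card_le_card_of_injOn
      (fun S => (⟨Poly.sh (-(m S)) S, -(m S)⟩ : Sigma fun _ : Finset (ℤ × ℤ) => ℤ × ℤ))
    · intro S hS
      obtain ⟨h1, h2, h3, h4⟩ := mem_AL.mp hS
      have hm1 := hm S hS
      rw [Finset.coe_sigma, Set.mem_sigma_iff]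
      refine ⟨?_, ?_⟩
      · change Poly.sh (-(m S)) S ∈ BL n L
        rw [mem_BL, mem_AL, card_sh]
        refine ⟨⟨h1, ?_, h3.sh _, ?_⟩, ?_⟩
        · rw [mem_sh]
          simpa using hm1.1
        · intro p hp q hq
          rw [← nd_sh (-(m S))]
          exact h4 _ (mem_sh.mp hp) _ (mem_sh.mp hq)
        · have := hm1.sh (-(m S))
          rwa [add_neg_cancel] at this
      · change -(m S) ∈ (Poly.sh (-(m S)) S : Set (ℤ × ℤ))
        rw [Finset.mem_coe, mem_sh]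
        simpa using h2
    · intro S hS S' hS' e
      have e1 : Poly.sh (-(m S)) S = Poly.sh (-(m S')) S' := congrArg Sigma.fst e
      have e2 : -(m S) = -(m S') := congrArg Sigma.snd e
      have e3 : Poly.sh (m S) (Poly.sh (-(m S)) S) = Poly.sh (m S') (Poly.sh (-(m S')) S') := by
        rw [e1, neg_injective e2]
      rwa [sh_sh, sh_sh, neg_add_cancel, neg_add_cancel, sh_zero, sh_zero] at e3
  refine h1.trans ?_
  rw [Finset.card_sigma, Finset.sum_congr rfl fun R hR => (mem_AL.mp (mem_BL.mp hR).1).1,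
    Finset.sum_const, smul_eq_mul, mul_comm]

/-- the gluing data determines the polyomino -/
theorem glue_inj {R Q R' Q' : Finset (ℤ × ℤ)} {a b a' b' : ℤ × ℤ} (hQ : Q ⊆ R) (hQ' : Q' ⊆ R')
    (hR : LM 0 R) (hR' : LM 0 R') (e1 : sh (-a) Q = sh (-a') Q')
    (e2 : sh (-b) (R \ Q) = sh (-b') (R' \ Q')) (e3 : a - b = a' - b') :
    R = R' ∧ Q = Q' ∧ a = a' ∧ b = b' := by
  classical
  have h1 : Q' = sh (a' - a) Q := by
    have := congrArg (sh a') e1
    rw [sh_sh, sh_sh, neg_add_cancel, sh_zero] at this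
    rw [← this]
    congr 1
    abel
  have hd : b' - b = a' - a := by
    have : a' - a = b' - b := by
      rw [sub_eq_sub_iff_add_eq_add] at e3 ⊢
      rw [add_comm a' b, add_comm b' a, e3]
      abel
    exact this.symm
  have h2 : R' \ Q' = sh (a' - a) (R \ Q) := by
    have := congrArg (sh b') e2
    rw [sh_sh, sh_sh, neg_add_cancel, sh_zero] at this
    rw [← this, ← hd]
    congr 1
    abel
  have h3 : R' = sh (a' - a) R := by
    rw [← Finset.union_sdiff_of_subset hQ, sh_union, ← h1, ← h2,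
      Finset.union_sdiff_of_subset hQ']
  have h4 : a' - a = 0 := by
    have h5 := hR.sh (a' - a)
    rw [zero_add, ← h3] at h5
    exact h5.unique hR'
  have ha : a = a' := (sub_eq_zero.mp h4).symm
  have hb : b = b' := by
    rw [h4] at hd
    exact (sub_eq_zero.mp hd).symm
  rw [h4, sh_zero] at h1 h3
  exact ⟨h3.symm, h1.symm, ha, hb⟩

/-- the number of connected sets with `n` cells containing the origin -/
noncomputable def A (n : ℕ) : ℕ := (AL n n).card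

/-- the splitting sum -/
noncomputable def M (r n : ℕ) : ℕ := ∑ k ∈ Finset.Icc r (n / 2), A k * A (n - k)

/-- the cells at distance exactly `s` from the origin -/
theorem card_sphere {s : ℕ} (hs : 1 ≤ s) : (box 0 s \ box 0 (s - 1)).card = 8 * s := by
  classical
  have hsub : box 0 (s - 1) ⊆ box 0 s := by
    intro p hp
    rw [mem_box] at hp ⊢
    omega
  rw [Finset.card_sdiff_of_subset hsub, card_box, card_box]
  obtain ⟨t, rfl⟩ : ∃ t, s = t + 1 := ⟨s - 1, by omega⟩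
  have : t + 1 - 1 = t := by omega
  rw [this]
  have h2 : (2 * (t + 1) + 1) ^ 2 = 8 * (t + 1) + (2 * t + 1) ^ 2 := by ring
  omega

section main

variable (n L r : ℕ) (O : Finset (ℤ × ℤ) → ℤ × ℤ) (P : Finset (ℤ × ℤ) → ℤ × ℤ → ℤ × ℤ)
  (D : Finset (ℤ × ℤ) → ℤ × ℤ → ℕ)

open Classical in
/-- polyomino, cut, two separated cells -/
noncomputable def QQ : Finset (Sigma fun _ : Finset (ℤ × ℤ) => (ℤ × ℤ) × (ℤ × ℤ) × (ℤ × ℤ)) :=
  (BL n L).sigma fun R => (R ×ˢ R ×ˢ R).filter fun t =>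
    t.1 ≠ O R ∧ r ≤ (sub R (P R) (D R) t.1).card ∧
      ¬ (t.2.1 ∈ sub R (P R) (D R) t.1 ↔ t.2.2 ∈ sub R (P R) (D R) t.1)

variable {n L r O P D}

theorem mem_QQ {x : Sigma fun _ : Finset (ℤ × ℤ) => (ℤ × ℤ) × (ℤ × ℤ) × (ℤ × ℤ)} :
    x ∈ QQ n L r O P D ↔ x.1 ∈ BL n L ∧ (x.2.1 ∈ x.1 ∧ x.2.2.1 ∈ x.1 ∧ x.2.2.2 ∈ x.1) ∧
      x.2.1 ≠ O x.1 ∧ r ≤ (sub x.1 (P x.1) (D x.1) x.2.1).card ∧
      ¬ (x.2.2.1 ∈ sub x.1 (P x.1) (D x.1) x.2.1 ↔ x.2.2.2 ∈ sub x.1 (P x.1) (D x.1) x.2.1) := by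
  classical
  unfold QQ
  rw [Finset.mem_sigma, Finset.mem_filter, Finset.mem_product, Finset.mem_product]

/-- the image of the gluing map is among the pairs counted by `M` -/
theorem glue_mem (hT : ∀ R ∈ BL n L, RT R (O R) (P R) (D R) ∧
      ∀ v ∈ R, v ≠ O R → 2 * (sub R (P R) (D R) v).card ≤ R.card)
    {R : Finset (ℤ × ℤ)} {v a b : ℤ × ℤ} (hR : R ∈ BL n L) (hv : v ∈ R) (hb : b ∈ R)
    (hvo : v ≠ O R) (hr : r ≤ (sub R (P R) (D R) v).card)
    (ha : a ∈ sub R (P R) (D R) v) (hb' : b ∉ sub R (P R) (D R) v) :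
    (⟨(sub R (P R) (D R) v).card, (sh (-a) (sub R (P R) (D R) v),
      sh (-b) (R \ sub R (P R) (D R) v))⟩ : Sigma fun _ : ℕ =>
        Finset (ℤ × ℤ) × Finset (ℤ × ℤ)) ∈
      (Finset.Icc r (n / 2)).sigma fun k => AL k k ×ˢ AL (n - k) (n - k) := by
  classical
  obtain ⟨T, hc⟩ := hT R hR
  have hcard : R.card = n := (mem_AL.mp (mem_BL.mp hR).1).1
  have h1 := hc v hv hvo
  rw [Finset.mem_sigma, Finset.mem_product]
  refine ⟨Finset.mem_Icc.mpr ⟨hr, by simp only; omega⟩, ?_, ?_⟩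
  · rw [mem_AL_self, card_sh]
    refine ⟨rfl, ?_, (T.sub_RT hv).conn.sh _⟩
    rw [mem_sh]
    simpa using ha
  · rw [mem_AL_self, card_sh, Finset.card_sdiff_of_subset (sub_subset v), hcard]
    refine ⟨rfl, ?_, (T.sdiff_RT hv hvo).conn.sh _⟩
    rw [mem_sh]
    simpa using ⟨hb, hb'⟩

theorem card_fiber (hT : ∀ R ∈ BL n L, RT R (O R) (P R) (D R) ∧
      ∀ v ∈ R, v ≠ O R → 2 * (sub R (P R) (D R) v).card ≤ R.card) (u : ℤ × ℤ) :
    ((QQ n L r O P D).filter fun x => x.2.2.1 - x.2.2.2 = u).card ≤ 2 * M r n := by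
  classical
  have hM : ((Finset.Icc r (n / 2)).sigma fun k => AL k k ×ˢ AL (n - k) (n - k)).card = M r n := by
    rw [Finset.card_sigma]
    unfold M A
    exact Finset.sum_congr rfl fun k _ => Finset.card_product _ _
  have h1 : (((QQ n L r O P D).filter fun x => x.2.2.1 - x.2.2.2 = u).filter
      fun x => x.2.2.1 ∈ sub x.1 (P x.1) (D x.1) x.2.1).card ≤ M r n := by
    rw [← hM]
    apply Finset.card_le_card_of_injOn
      (fun x => (⟨(sub x.1 (P x.1) (D x.1) x.2.1).card,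
        (sh (-x.2.2.1) (sub x.1 (P x.1) (D x.1) x.2.1),
          sh (-x.2.2.2) (x.1 \ sub x.1 (P x.1) (D x.1) x.2.1))⟩ : Sigma fun _ : ℕ =>
            Finset (ℤ × ℤ) × Finset (ℤ × ℤ)))
    · intro x hx
      rw [Finset.mem_coe, Finset.mem_filter, Finset.mem_filter, mem_QQ] at hx
      obtain ⟨⟨⟨hR, ⟨hv, hw, hy⟩, hvo, hr, hiff⟩, hu⟩, hwQ⟩ := hx
      exact glue_mem hT hR hv hy hvo hr hwQ fun h => hiff ⟨fun _ => h, fun _ => hwQ⟩
    · intro x hx x' hx' e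
      rw [Finset.mem_coe, Finset.mem_filter, Finset.mem_filter, mem_QQ] at hx hx'
      obtain ⟨⟨⟨hR, ⟨hv, hw, hy⟩, hvo, hr, hiff⟩, hu⟩, hwQ⟩ := hx
      obtain ⟨⟨⟨hR', ⟨hv', hw', hy'⟩, hvo', hr', hiff'⟩, hu'⟩, hwQ'⟩ := hx'
      have e1 := congrArg (fun z : Sigma fun _ : ℕ => Finset (ℤ × ℤ) × Finset (ℤ × ℤ) => z.2.1) e
      have e2 := congrArg (fun z : Sigma fun _ : ℕ => Finset (ℤ × ℤ) × Finset (ℤ × ℤ) => z.2.2) e
      simp only at e1 e2
      obtain ⟨g1, g2, g3, g4⟩ := glue_inj (sub_subset _) (sub_subset _) (mem_BL.mp hR).2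
        (mem_BL.mp hR').2 e1 e2 (hu.trans hu'.symm)
      obtain ⟨R, v, w, y⟩ := x
      obtain ⟨R', v', w', y'⟩ := x'
      simp only at g1 g2 g3 g4 hv hv'
      subst g1
      have g5 := (hT R hR).1.sub_inj hv hv' g2
      subst g3 g4 g5
      rfl
  have h2 : (((QQ n L r O P D).filter fun x => x.2.2.1 - x.2.2.2 = u).filter
      fun x => ¬ x.2.2.1 ∈ sub x.1 (P x.1) (D x.1) x.2.1).card ≤ M r n := by
    rw [← hM]
    apply Finset.card_le_card_of_injOn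
      (fun x => (⟨(sub x.1 (P x.1) (D x.1) x.2.1).card,
        (sh (-x.2.2.2) (sub x.1 (P x.1) (D x.1) x.2.1),
          sh (-x.2.2.1) (x.1 \ sub x.1 (P x.1) (D x.1) x.2.1))⟩ : Sigma fun _ : ℕ =>
            Finset (ℤ × ℤ) × Finset (ℤ × ℤ)))
    · intro x hx
      rw [Finset.mem_coe, Finset.mem_filter, Finset.mem_filter, mem_QQ] at hx
      obtain ⟨⟨⟨hR, ⟨hv, hw, hy⟩, hvo, hr, hiff⟩, hu⟩, hwQ⟩ := hx
      refine glue_mem hT hR hv hw hvo hr ?_ hwQ
      by_contra h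
      exact hiff ⟨fun h' => absurd h' hwQ, fun h' => absurd h' h⟩
    · intro x hx x' hx' e
      rw [Finset.mem_coe, Finset.mem_filter, Finset.mem_filter, mem_QQ] at hx hx'
      obtain ⟨⟨⟨hR, ⟨hv, hw, hy⟩, hvo, hr, hiff⟩, hu⟩, hwQ⟩ := hx
      obtain ⟨⟨⟨hR', ⟨hv', hw', hy'⟩, hvo', hr', hiff'⟩, hu'⟩, hwQ'⟩ := hx'
      have e1 := congrArg (fun z : Sigma fun _ : ℕ => Finset (ℤ × ℤ) × Finset (ℤ × ℤ) => z.2.1) e
      have e2 := congrArg (fun z : Sigma fun _ : ℕ => Finset (ℤ × ℤ) × Finset (ℤ × ℤ) => z.2.2) e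
      simp only at e1 e2
      have e3 : x.2.2.2 - x.2.2.1 = x'.2.2.2 - x'.2.2.1 := by
        rw [← neg_sub, ← neg_sub x'.2.2.1, hu, hu']
      obtain ⟨g1, g2, g3, g4⟩ := glue_inj (sub_subset _) (sub_subset _) (mem_BL.mp hR).2
        (mem_BL.mp hR').2 e1 e2 e3
      obtain ⟨R, v, w, y⟩ := x
      obtain ⟨R', v', w', y'⟩ := x'
      simp only at g1 g2 g3 g4 hv hv'
      subst g1
      have g5 := (hT R hR).1.sub_inj hv hv' g2
      subst g3 g4 g5
      rfl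
  have h3 := Finset.card_filter_add_card_filter_not
    (s := (QQ n L r O P D).filter fun x => x.2.2.1 - x.2.2.2 = u)
    (fun x => x.2.2.1 ∈ sub x.1 (P x.1) (D x.1) x.2.1)
  omega

end main

end Pool.Agent.helper68.Poly
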