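import Pool.Agent.helper68.Poly.Tree

set_option autoImplicit false

/-!
# Cuts of a spanning tree separating two cells (helper68, MP_d35578_co)
-/

open Finset

namespace Pool.Agent.helper68.Poly

variable {S : Finset (ℤ × ℤ)} {o : ℤ × ℤ} {par : ℤ × ℤ → ℤ × ℤ} {d : ℤ × ℤ → ℕ}

/-- the vertices whose subtree separates `w` from `y` -/
noncomputable def sep (S : Finset (ℤ × ℤ)) (o : ℤ × ℤ) (par : ℤ × ℤ → ℤ × ℤ) (d : ℤ × ℤ → ℕ)
    (w y : ℤ × ℤ) : Finset (ℤ × ℤ) :=
  S.filter fun v => v ≠ o ∧ ¬ (w ∈ sub S par d v ↔ y ∈ sub S par d v)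

theorem sep_comm (w y : ℤ × ℤ) : sep S o par d w y = sep S o par d y w := by
  unfold sep
  apply Finset.filter_congr
  intro v _
  constructor <;> rintro ⟨a, b⟩ <;> exact ⟨a, fun h => b h.symm⟩

/-- two cells at distance `k` are separated by at least `k` subtrees -/
theorem RT.card_sep (T : RT S o par d) : ∀ N : ℕ, ∀ w ∈ S, ∀ y ∈ S, d w + d y = N →
    nd w y ≤ (sep S o par d w y).card := by
  classical
  intro N
  induction N using Nat.strong_induction_on with
  | _ N ih =>
  have main : ∀ w ∈ S, ∀ y ∈ S, d w + d y = N → d y ≤ d w →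
      nd w y ≤ (sep S o par d w y).card := by
    intro w hw y hy hN hle
    by_cases hwy : w = y
    · subst hwy
      rw [nd_self]
      exact Nat.zero_le _
    have hwo : w ≠ o := by
      rintro rfl
      rw [T.h0] at hle
      exact hwy (T.eq_root hy (by omega)).symm
    obtain ⟨hp, hnb, hd⟩ := T.hp w hw hwo
    have h1 := ih (d (par w) + d y) (by omega) (par w) hp y hy rfl
    have hyw : y ∉ sub S par d w := by
      intro h
      rw [mem_sub] at h
      have h2 : d y = d w := le_antisymm hle h.2.1
      have h3 := h.2.2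
      rw [h2, Nat.sub_self] at h3
      exact hwy h3.symm
    have hpw : par w ∉ sub S par d w := by
      intro h
      have := (mem_sub.mp h).2.1
      omega
    have hnot : w ∉ sep S o par d (par w) y := by
      intro h
      have := (Finset.mem_filter.mp h).2.2
      exact this ⟨fun h' => absurd h' hpw, fun h' => absurd h' hyw⟩
    have hsub : insert w (sep S o par d (par w) y) ⊆ sep S o par d w y := by
      intro v hv
      rw [Finset.mem_insert] at hv
      rcases hv with rfl | hv
      · refine Finset.mem_filter.mpr ⟨hw, hwo, ?_⟩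
        intro h
        exact hyw (h.mp (self_mem_sub hw))
      · have hvw : v ≠ w := fun e => hnot (e ▸ hv)
        obtain ⟨hvS, hvo, hv2⟩ := Finset.mem_filter.mp hv
        refine Finset.mem_filter.mpr ⟨hvS, hvo, ?_⟩
        intro h
        apply hv2
        rw [← h]
        constructor
        · intro h3
          by_contra h4
          exact T.par_notMem_sub hw hwo h4 h3
        · intro h3
          exact (T.par_mem_sub h3 hvw.symm).2
    have h5 := Finset.card_le_card hsub
    rw [Finset.card_insert_of_notMem hnot] at h5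
    have h6 := nd_nb hnb.symm y
    omega
  intro w hw y hy hN
  rcases le_total (d y) (d w) with h | h
  · exact main w hw y hy hN h
  · rw [nd_comm, sep_comm]
    exact main y hy w hw (by omega) h

/-- few ancestors have a small subtree -/
theorem RT.card_small (T : RT S o par d) {w : ℤ × ℤ} (hw : w ∈ S) (r : ℕ) :
    (S.filter fun v => w ∈ sub S par d v ∧ (sub S par d v).card < r).card ≤ r := by
  classical
  conv_rhs => rw [← Finset.card_range r]
  apply Finset.card_le_card_of_injOn (fun v => d w - d v)
  · intro v hv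
    obtain ⟨hvS, h1, h2⟩ := Finset.mem_filter.mp hv
    rw [Finset.coe_range, Set.mem_Iio]
    have h3 := mem_sub.mp h1
    have h4 : (Finset.range (d w - d v + 1)).card ≤ (sub S par d v).card := by
      apply Finset.card_le_card_of_injOn (fun i => par^[i] w)
      · intro i hi
        have hi' : i < d w - d v + 1 := Finset.mem_range.mp hi
        obtain ⟨h5, h6⟩ := T.iter hw i (by omega)
        change par^[i] w ∈ sub S par d v
        rw [mem_sub]
        refine ⟨h5, by omega, ?_⟩
        rw [← Function.iterate_add_apply]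
        have : d (par^[i] w) - d v + i = d w - d v := by omega
        rw [this]
        exact h3.2.2
      · intro i hi j hj hij
        have hi' : i < d w - d v + 1 := Finset.mem_range.mp hi
        have hj' : j < d w - d v + 1 := Finset.mem_range.mp hj
        have h5 := (T.iter hw i (by omega)).2
        have h6 := (T.iter hw j (by omega)).2
        have h7 : d (par^[i] w) = d (par^[j] w) := congrArg d hij
        omega
    rw [Finset.card_range] at h4
    change d w - d v < r
    omega
  · intro v hv v' hv' e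
    obtain ⟨_, h1, _⟩ := Finset.mem_filter.mp hv
    obtain ⟨_, h1', _⟩ := Finset.mem_filter.mp hv'
    have h3 := (mem_sub.mp h1).2.2
    have h3' := (mem_sub.mp h1').2.2
    have e' : d w - d v = d w - d v' := e
    rw [← h3, ← h3', e']

/-- the vertices with a large subtree separating `w` from `y` -/
noncomputable def cut (S : Finset (ℤ × ℤ)) (o : ℤ × ℤ) (par : ℤ × ℤ → ℤ × ℤ) (d : ℤ × ℤ → ℕ)
    (r : ℕ) (w y : ℤ × ℤ) : Finset (ℤ × ℤ) :=
  S.filter fun v => v ≠ o ∧ r ≤ (sub S par d v).card ∧
    ¬ (w ∈ sub S par d v ↔ y ∈ sub S par d v)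

theorem RT.card_cut (T : RT S o par d) {w y : ℤ × ℤ} (hw : w ∈ S) (hy : y ∈ S) (r : ℕ) :
    nd w y ≤ (cut S o par d r w y).card + 2 * r := by
  classical
  have h1 := T.card_sep _ w hw y hy rfl
  have h2 := T.card_small hw r
  have h3 := T.card_small hy r
  have hsub : sep S o par d w y ⊆ cut S o par d r w y ∪
      ((S.filter fun v => w ∈ sub S par d v ∧ (sub S par d v).card < r) ∪
        (S.filter fun v => y ∈ sub S par d v ∧ (sub S par d v).card < r)) := by
    intro v hv
    obtain ⟨hvS, hvo, hv2⟩ := Finset.mem_filter.mp hv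
    rw [Finset.mem_union, Finset.mem_union]
    rcases le_or_gt r (sub S par d v).card with h | h
    · left
      exact Finset.mem_filter.mpr ⟨hvS, hvo, h, hv2⟩
    · right
      by_cases hwv : w ∈ sub S par d v
      · left
        exact Finset.mem_filter.mpr ⟨hvS, hwv, h⟩
      · right
        refine Finset.mem_filter.mpr ⟨hvS, ?_, h⟩
        by_contra hyv
        exact hv2 ⟨fun h' => absurd h' hwv, fun h' => absurd h' hyv⟩
  have h4 := Finset.card_le_card hsub
  have h5 := Finset.card_union_le (cut S o par d r w y)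
    ((S.filter fun v => w ∈ sub S par d v ∧ (sub S par d v).card < r) ∪
        (S.filter fun v => y ∈ sub S par d v ∧ (sub S par d v).card < r))
  have h6 := Finset.card_union_le
    (S.filter fun v => w ∈ sub S par d v ∧ (sub S par d v).card < r)
    (S.filter fun v => y ∈ sub S par d v ∧ (sub S par d v).card < r)
  omega

/-- the box of radius `s` around `p` -/
noncomputable def box (p : ℤ × ℤ) (s : ℕ) : Finset (ℤ × ℤ) :=
  Finset.Icc (p.1 - s) (p.1 + s) ×ˢ Finset.Icc (p.2 - s) (p.2 + s)

theorem mem_box {p q : ℤ × ℤ} {s : ℕ} : q ∈ box p s ↔ nd p q ≤ s := by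
  unfold box nd
  rw [Finset.mem_product, Finset.mem_Icc, Finset.mem_Icc]
  omega

theorem card_box (p : ℤ × ℤ) (s : ℕ) : (box p s).card = (2 * s + 1) ^ 2 := by
  unfold box
  rw [Finset.card_product, Int.card_Icc, Int.card_Icc]
  have h1 : (p.1 + s + 1 - (p.1 - s)).toNat = 2 * s + 1 := by omega
  have h2 : (p.2 + s + 1 - (p.2 - s)).toNat = 2 * s + 1 := by omega
  rw [h1, h2, sq]

/-- most pairs of cells are far apart -/
theorem card_far {r : ℕ} (hr : 1 ≤ r) (h : 128 * r ^ 2 ≤ S.card) :
    S.card ^ 2 ≤ 2 * ((S ×ˢ S).filter fun p => 4 * r ≤ nd p.1 p.2).card := by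
  classical
  have h1 : ((S ×ˢ S).filter fun p => 4 * r ≤ nd p.1 p.2).card +
      ((S ×ˢ S).filter fun p => ¬ 4 * r ≤ nd p.1 p.2).card = S.card * S.card := by
    rw [Finset.card_filter_add_card_filter_not, Finset.card_product]
  have h2 : ((S ×ˢ S).filter fun p => ¬ 4 * r ≤ nd p.1 p.2).card ≤ S.card * (64 * r ^ 2) := by
    have h3 : ((S ×ˢ S).filter fun p => ¬ 4 * r ≤ nd p.1 p.2) ⊆
        S.biUnion fun w => (box w (4 * r - 1)).image fun y => (w, y) := by
      intro p hp
      rw [Finset.mem_filter, Finset.mem_product] at hp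
      rw [Finset.mem_biUnion]
      refine ⟨p.1, hp.1.1, ?_⟩
      rw [Finset.mem_image]
      exact ⟨p.2, mem_box.mpr (by omega), rfl⟩
    refine (Finset.card_le_card h3).trans (Finset.card_biUnion_le.trans ?_)
    refine (Finset.sum_le_card_nsmul _ _ (64 * r ^ 2) fun w _ => ?_).trans (le_of_eq (smul_eq_mul _ _))
    refine Finset.card_image_le.trans ?_
    rw [card_box]
    have h4 : 2 * (4 * r - 1) + 1 ≤ 8 * r := by omega
    calc (2 * (4 * r - 1) + 1) ^ 2 ≤ (8 * r) ^ 2 := Nat.pow_le_pow_left h4 2
      _ = 64 * r ^ 2 := by ring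
  nlinarith

end Pool.Agent.helper68.Poly
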