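import Pool.Agent.helper68.Poly.Anal

set_option autoImplicit false

/-!
# Lower bounds for the exponent (helper68, MP_d35578_co)
-/

open Finset Filter Topology

namespace Pool.Agent.helper68.Poly

/-- tails of a convergent power sum over windows are small -/
theorem window_tail {ε δ : ℝ} (hε : 0 < ε) (hδ : 0 < δ) :
    ∃ r₀ : ℕ, ∀ r ≥ r₀, ∀ N : ℕ, ∑ k ∈ Finset.Icc r N, (k : ℝ) ^ (-1 - ε) < δ := by
  classical
  have hsum : Summable fun k : ℕ => (k : ℝ) ^ (-1 - ε) :=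
    Real.summable_nat_rpow.mpr (by linarith)
  obtain ⟨s, hs⟩ := summable_iff_vanishing_norm.mp hsum δ hδ
  refine ⟨s.sup id + 1, fun r hr N => ?_⟩
  have hd : Disjoint (Finset.Icc r N) s := by
    rw [Finset.disjoint_left]
    intro k hk hks
    rw [Finset.mem_Icc] at hk
    have : k ≤ s.sup id := Finset.le_sup (f := id) hks
    omega
  have h1 := hs _ hd
  rw [Real.norm_eq_abs] at h1
  exact (le_abs_self _).trans_lt h1

theorem frequently_large {α : ℝ}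
    (hα : Tendsto (fun n : ℕ => B n ^ ((1 : ℝ) / n)) atTop (𝓝 α)) {ε : ℝ} (hε : 0 < ε) :
    ∃ᶠ n : ℕ in atTop, α ^ n * (n : ℝ) ^ (-2 - ε) ≤ B n := by
  classical
  intro hcon
  obtain ⟨n₀, hn₀⟩ := eventually_atTop.mp hcon
  obtain ⟨r₀, hr₀⟩ := window_tail hε (show (0 : ℝ) < 1 / 256 by norm_num)
  set r := max (max n₀ r₀) 1 with hr
  have hr1 : 1 ≤ r := le_max_right _ _
  have hrn : n₀ ≤ r := (le_max_left _ _).trans (le_max_left _ _)
  have hrr : r₀ ≤ r := (le_max_right _ _).trans (le_max_left _ _)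
  obtain ⟨hα0, h1⟩ := window_lower hα hr1
  have h2 : ∑ n ∈ Finset.Icc r (128 * r ^ 2), (A n : ℝ) / α ^ n ≤
      ∑ n ∈ Finset.Icc r (128 * r ^ 2), (n : ℝ) ^ (-1 - ε) := by
    refine Finset.sum_le_sum fun n hn => ?_
    rw [Finset.mem_Icc] at hn
    have hn1 : 1 ≤ n := hr1.trans hn.1
    have hn0 : (0 : ℝ) < n := by exact_mod_cast hn1
    have h3 := hn₀ n (hrn.trans hn.1)
    rw [not_le] at h3
    have hpa : 0 < α ^ n := by positivity
    rw [div_le_iff₀ hpa, ← n_mul_B hn1]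
    have h4 : (n : ℝ) ^ (-1 - ε) = n * (n : ℝ) ^ (-2 - ε) := by
      have : (-1 - ε : ℝ) = 1 + (-2 - ε) := by ring
      rw [this, Real.rpow_add hn0, Real.rpow_one]
    rw [h4]
    calc (n : ℝ) * B n ≤ n * (α ^ n * (n : ℝ) ^ (-2 - ε)) :=
          mul_le_mul_of_nonneg_left h3.le hn0.le
      _ = _ := by ring
  have h3 := hr₀ r hrr (128 * r ^ 2)
  linarith

theorem AL_self_le {n L : ℕ} (h : n ≤ L) : (AL n L) = AL n n := by
  ext S
  rw [mem_AL, mem_AL_self]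
  constructor
  · rintro ⟨h1, h2, h3, _⟩
    exact ⟨h1, h2, h3⟩
  · rintro ⟨h1, h2, h3⟩
    refine ⟨h1, h2, h3, fun p hp q hq => ?_⟩
    have := h3.nd_le hp hq
    omega

theorem exponent_aux {A₀ α θ ν : ℝ} (hA : 0 < A₀)
    (h : Asymptotics.IsEquivalent atTop B (fun n : ℕ => A₀ * α ^ n * (n : ℝ) ^ θ)) (hν1 : ν ≤ 1)
    (hν : ∃ c > 0, ∃ᶠ n : ℕ in atTop, c * B n ≤ ((AL n ⌊(n : ℝ) ^ ν⌋₊).card : ℝ) / n) :
    -1 - ν ≤ θ := by
  classical
  by_contra hcon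
  rw [not_le] at hcon
  obtain ⟨c, hc, hfreq⟩ := hν
  set ε : ℝ := -1 - ν - θ with hε
  have hε0 : 0 < ε := by rw [hε]; linarith
  obtain ⟨φ, hφ, hφ'⟩ := h.exists_eq_mul
  have hev : ∀ᶠ n : ℕ in atTop, 0 < A₀ * α ^ n * (n : ℝ) ^ θ ∧
      B n ≤ 2 * (A₀ * α ^ n * (n : ℝ) ^ θ) ∧ 1 / 2 * (A₀ * α ^ n * (n : ℝ) ^ θ) ≤ B n := by
    have h1 : ∀ᶠ n : ℕ in atTop, φ n < 2 := hφ.eventually (gt_mem_nhds (by norm_num))
    have h2 : ∀ᶠ n : ℕ in atTop, 1 / 2 < φ n := hφ.eventually (lt_mem_nhds (by norm_num))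
    filter_upwards [h1, h2, hφ', eventually_ge_atTop 1] with n a1 a2 a3 a4
    have hB := B_pos a4
    have a3' : B n = φ n * (A₀ * α ^ n * (n : ℝ) ^ θ) := a3
    have hv : 0 < A₀ * α ^ n * (n : ℝ) ^ θ := by
      rw [a3'] at hB
      exact (pos_iff_pos_of_mul_pos hB).mp (by linarith)
    refine ⟨hv, ?_, ?_⟩
    · rw [a3']
      exact mul_le_mul_of_nonneg_right a1.le hv.le
    · rw [a3']
      exact mul_le_mul_of_nonneg_right a2.le hv.le
  obtain ⟨m₁, hm₁⟩ := eventually_atTop.mp hev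
  have hα0 : 0 < α := by
    obtain ⟨h1, -⟩ := hm₁ (2 * m₁ + 1) (by omega)
    have h2 : 0 < ((2 * m₁ + 1 : ℕ) : ℝ) ^ θ := by positivity
    have h3 : 0 < A₀ * α ^ (2 * m₁ + 1) := (pos_iff_pos_of_mul_pos h1).mpr h2
    have h4 : 0 < α ^ (2 * m₁ + 1) := (pos_iff_pos_of_mul_pos h3).mp hA
    exact (Odd.pow_pos_iff ⟨m₁, rfl⟩).mp h4
  set C : ℝ := 2 ^ |θ + 1| with hC
  have hC0 : 0 < C := by positivity
  obtain ⟨r₀, hr₀⟩ := window_tail hε0 (show (0 : ℝ) < c / (1024 * A₀ * C) by positivity)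
  set r := max (max m₁ r₀) 1 with hr
  have hr1 : 1 ≤ r := le_max_right _ _
  have hrn : m₁ ≤ r := (le_max_left _ _).trans (le_max_left _ _)
  have hrr : r₀ ≤ r := (le_max_right _ _).trans (le_max_left _ _)
  obtain ⟨n, hn, hnr⟩ := (hfreq.and_eventually (eventually_ge_atTop (128 * r ^ 2))).exists
  have hrn' : r ≤ n := by nlinarith
  have hn1 : 1 ≤ n := hr1.trans hrn'
  have hn0 : (0 : ℝ) < n := by exact_mod_cast hn1
  have hAu : ∀ k : ℕ, r ≤ k → (A k : ℝ) ≤ 2 * A₀ * α ^ k * (k : ℝ) ^ (θ + 1) := by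
    intro k hk
    have hk1 : 1 ≤ k := hr1.trans hk
    have hk0 : (0 : ℝ) < k := by exact_mod_cast hk1
    have := (hm₁ k (hrn.trans hk)).2.1
    rw [← n_mul_B hk1, Real.rpow_add hk0, Real.rpow_one]
    calc (k : ℝ) * B k ≤ k * (2 * (A₀ * α ^ k * (k : ℝ) ^ θ)) :=
          mul_le_mul_of_nonneg_left this hk0.le
      _ = _ := by ring
  have hAl : 1 / 2 * A₀ * α ^ n * (n : ℝ) ^ (θ + 1) ≤ A n := by
    have := (hm₁ n (hrn.trans hrn')).2.2
    rw [← n_mul_B hn1, Real.rpow_add hn0, Real.rpow_one]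
    calc 1 / 2 * A₀ * α ^ n * ((n : ℝ) ^ θ * n) = n * (1 / 2 * (A₀ * α ^ n * (n : ℝ) ^ θ)) := by
          ring
      _ ≤ n * B n := mul_le_mul_of_nonneg_left this hn0.le
  -- the splitting inequality
  have hmain : (n : ℝ) * (AL n ⌊(n : ℝ) ^ ν⌋₊).card ≤ 64 * (n : ℝ) ^ ν * M r n := by
    have h1 := main_ineq (L := ⌊(n : ℝ) ^ ν⌋₊) hr1 hnr
    have h2 : (n : ℝ) * (AL n ⌊(n : ℝ) ^ ν⌋₊).card ≤ 64 * (⌊(n : ℝ) ^ ν⌋₊ : ℝ) * M r n := by
      exact_mod_cast h1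
    refine h2.trans ?_
    have h3 : ((⌊(n : ℝ) ^ ν⌋₊ : ℕ) : ℝ) ≤ (n : ℝ) ^ ν := Nat.floor_le (by positivity)
    have h4 : (0 : ℝ) ≤ M r n := by positivity
    nlinarith
  have hlow : (n : ℝ) * (c * A n) ≤ n * (AL n ⌊(n : ℝ) ^ ν⌋₊).card := by
    refine mul_le_mul_of_nonneg_left ?_ hn0.le
    rw [le_div_iff₀ hn0] at hn
    rw [← n_mul_B hn1]
    linarith
  have hM : (M r n : ℝ) ≤ 4 * A₀ ^ 2 * α ^ n * C * (n : ℝ) ^ (θ + 1) * (n : ℝ) ^ (1 - ν) *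
      ∑ k ∈ Finset.Icc r (n / 2), (k : ℝ) ^ (-1 - ε) := by
    unfold M
    push_cast
    rw [Finset.mul_sum]
    refine Finset.sum_le_sum fun k hk => ?_
    rw [Finset.mem_Icc] at hk
    have hk1 : 1 ≤ k := hr1.trans hk.1
    have hk0 : (0 : ℝ) < k := by exact_mod_cast hk1
    have hnk : r ≤ n - k := by omega
    have hnk0 : (0 : ℝ) < ((n - k : ℕ) : ℝ) := by exact_mod_cast (by omega : 0 < n - k)
    have h1 := hAu k hk.1
    have h2 := hAu (n - k) hnk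
    have h3 : ((n - k : ℕ) : ℝ) ^ (θ + 1) ≤ C * (n : ℝ) ^ (θ + 1) := by
      rcases le_total 0 (θ + 1) with h4 | h4
      · have h5 : ((n - k : ℕ) : ℝ) ^ (θ + 1) ≤ (n : ℝ) ^ (θ + 1) :=
          Real.rpow_le_rpow hnk0.le (by exact_mod_cast Nat.sub_le n k) h4
        have h6 : 1 ≤ C := Real.one_le_rpow (by norm_num) (abs_nonneg _)
        have h7 : 0 ≤ (n : ℝ) ^ (θ + 1) := by positivity
        nlinarith
      · have h5 : (n : ℝ) / 2 ≤ ((n - k : ℕ) : ℝ) := by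
          rw [div_le_iff₀ (by norm_num)]
          exact_mod_cast (by omega : n ≤ (n - k) * 2)
        have h6 : ((n - k : ℕ) : ℝ) ^ (θ + 1) ≤ ((n : ℝ) / 2) ^ (θ + 1) :=
          Real.rpow_le_rpow_of_nonpos (by positivity) h5 h4
        refine h6.trans (le_of_eq ?_)
        rw [Real.div_rpow hn0.le (by norm_num), hC, abs_of_nonpos h4, Real.rpow_neg (by norm_num)]
        field_simp
    have h8 : (k : ℝ) ^ (θ + 1) ≤ (n : ℝ) ^ (1 - ν) * (k : ℝ) ^ (-1 - ε) := by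
      have e : θ + 1 = (1 - ν) + (-1 - ε) := by rw [hε]; ring
      rw [e, Real.rpow_add hk0]
      refine mul_le_mul_of_nonneg_right ?_ (by positivity)
      refine Real.rpow_le_rpow hk0.le ?_ (by linarith)
      exact_mod_cast (by omega : k ≤ n)
    calc (A k : ℝ) * A (n - k) ≤ (2 * A₀ * α ^ k * (k : ℝ) ^ (θ + 1)) *
          (2 * A₀ * α ^ (n - k) * ((n - k : ℕ) : ℝ) ^ (θ + 1)) :=
          mul_le_mul h1 h2 (by positivity) (by positivity)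
      _ = 4 * A₀ ^ 2 * (α ^ k * α ^ (n - k)) * ((k : ℝ) ^ (θ + 1) *
            ((n - k : ℕ) : ℝ) ^ (θ + 1)) := by ring
      _ = 4 * A₀ ^ 2 * α ^ n * ((k : ℝ) ^ (θ + 1) * ((n - k : ℕ) : ℝ) ^ (θ + 1)) := by
          rw [← pow_add, show k + (n - k) = n by omega]
      _ ≤ 4 * A₀ ^ 2 * α ^ n * (((n : ℝ) ^ (1 - ν) * (k : ℝ) ^ (-1 - ε)) *
            (C * (n : ℝ) ^ (θ + 1))) := by
          refine mul_le_mul_of_nonneg_left ?_ (by positivity)
          exact mul_le_mul h8 h3 (by positivity) (by positivity)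
      _ = _ := by ring
  have htau := hr₀ r hrr (n / 2)
  set τ : ℝ := ∑ k ∈ Finset.Icc r (n / 2), (k : ℝ) ^ (-1 - ε) with hτ
  have hτ0 : 0 ≤ τ := Finset.sum_nonneg fun k _ => by positivity
  have e3 : (n : ℝ) ^ ν * (n : ℝ) ^ (1 - ν) = n := by
    rw [← Real.rpow_add hn0]
    have : ν + (1 - ν) = 1 := by ring
    rw [this, Real.rpow_one]
  set X : ℝ := α ^ n * (n : ℝ) ^ (θ + 1) * n with hX
  have hX0 : 0 < X := by positivity
  have hfin : c / 2 * A₀ * X ≤ 256 * A₀ ^ 2 * C * τ * X := by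
    calc c / 2 * A₀ * X = (n : ℝ) * (c * (1 / 2 * A₀ * α ^ n * (n : ℝ) ^ (θ + 1))) := by
          rw [hX]; ring
      _ ≤ n * (c * A n) := by
          refine mul_le_mul_of_nonneg_left ?_ hn0.le
          exact mul_le_mul_of_nonneg_left hAl hc.le
      _ ≤ 64 * (n : ℝ) ^ ν * M r n := hlow.trans hmain
      _ ≤ 64 * (n : ℝ) ^ ν * (4 * A₀ ^ 2 * α ^ n * C * (n : ℝ) ^ (θ + 1) * (n : ℝ) ^ (1 - ν) * τ) :=
          mul_le_mul_of_nonneg_left hM (by positivity)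
      _ = 256 * A₀ ^ 2 * C * τ * (α ^ n * (n : ℝ) ^ (θ + 1) *
            ((n : ℝ) ^ ν * (n : ℝ) ^ (1 - ν))) := by ring
      _ = _ := by rw [e3]
  have h9 : c / 2 * A₀ ≤ 256 * A₀ ^ 2 * C * τ := le_of_mul_le_mul_right hfin hX0
  rw [lt_div_iff₀ (by positivity)] at htau
  have h10 : c / 2 ≤ 256 * A₀ * C * τ := by
    have : c / 2 * A₀ ≤ (256 * A₀ * C * τ) * A₀ := by nlinarith
    exact le_of_mul_le_mul_right this hA
  nlinarith

theorem exponent_two {A₀ α θ : ℝ} (hA : 0 < A₀)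
    (h : Asymptotics.IsEquivalent atTop B (fun n : ℕ => A₀ * α ^ n * (n : ℝ) ^ θ)) :
    -2 ≤ θ := by
  have h1 := exponent_aux (ν := 1) hA h le_rfl
    ⟨1, one_pos, (Eventually.of_forall fun n => ?_).frequently⟩
  · linarith
  · rw [Real.rpow_one, Nat.floor_natCast, one_mul]
    exact le_rfl

theorem exponent_lower {A₀ α θ ν : ℝ} (hA : 0 < A₀)
    (h : Asymptotics.IsEquivalent atTop B (fun n : ℕ => A₀ * α ^ n * (n : ℝ) ^ θ))
    (hν : ∃ c > 0, ∃ᶠ n : ℕ in atTop, c * B n ≤ ((AL n ⌊(n : ℝ) ^ ν⌋₊).card : ℝ) / n) :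
    -1 - ν ≤ θ := by
  rcases le_total ν 1 with h1 | h1
  · exact exponent_aux hA h h1 hν
  · have := exponent_two hA h
    linarith

end Pool.Agent.helper68.Poly
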