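import Pool.Agent.helper68.Poly.Count

set_option autoImplicit false

/-!
# The splitting inequality, end of the proof (helper68, MP_d35578_co)
-/

open Finset

namespace Pool.Agent.helper68.Poly

variable {n L r : ℕ} {O : Finset (ℤ × ℤ) → ℤ × ℤ} {P : Finset (ℤ × ℤ) → ℤ × ℤ → ℤ × ℤ}
  {D : Finset (ℤ × ℤ) → ℤ × ℤ → ℕ}

theorem nd_sub_zero (w y : ℤ × ℤ) : nd 0 (w - y) = nd w y := by
  unfold nd
  simp only [Prod.fst_zero, Prod.snd_zero, Prod.fst_sub, Prod.snd_sub]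
  omega

theorem card_dist (hT : ∀ R ∈ BL n L, RT R (O R) (P R) (D R) ∧
      ∀ v ∈ R, v ≠ O R → 2 * (sub R (P R) (D R) v).card ≤ R.card) {s : ℕ} (hs : 1 ≤ s) :
    ((QQ n L r O P D).filter fun x => nd x.2.2.1 x.2.2.2 = s).card ≤ 8 * s * (2 * M r n) := by
  classical
  have hmap : ∀ x ∈ (QQ n L r O P D).filter (fun x => nd x.2.2.1 x.2.2.2 = s),
      x.2.2.1 - x.2.2.2 ∈ box 0 s \ box 0 (s - 1) := by
    intro x hx
    have h1 := (Finset.mem_filter.mp hx).2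
    rw [Finset.mem_sdiff, mem_box, mem_box, nd_sub_zero]
    omega
  rw [Finset.card_eq_sum_card_fiberwise hmap, ← card_sphere hs]
  refine (Finset.sum_le_card_nsmul _ _ (2 * M r n) fun u _ => ?_).trans
    (le_of_eq (smul_eq_mul _ _))
  refine le_trans (Finset.card_le_card ?_) (card_fiber (r := r) hT u)
  intro x hx
  rw [Finset.mem_filter, Finset.mem_filter] at hx
  exact Finset.mem_filter.mpr ⟨hx.1.1, hx.2⟩

theorem sum_upper (hT : ∀ R ∈ BL n L, RT R (O R) (P R) (D R) ∧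
      ∀ v ∈ R, v ≠ O R → 2 * (sub R (P R) (D R) v).card ≤ R.card) :
    ∑ x ∈ QQ n L r O P D, (1 : ℝ) / (nd x.2.2.1 x.2.2.2 : ℝ) ≤ 16 * L * M r n := by
  classical
  have hmap : ∀ x ∈ QQ n L r O P D, nd x.2.2.1 x.2.2.2 ∈ Finset.Icc 1 L := by
    intro x hx
    rw [mem_QQ] at hx
    obtain ⟨hR, ⟨hv, hw, hy⟩, hvo, hr, hiff⟩ := hx
    have h1 := (mem_AL.mp (mem_BL.mp hR).1).2.2.2 _ hw _ hy
    rw [Finset.mem_Icc]
    refine ⟨?_, h1⟩
    by_contra hlt
    have h2 : nd x.2.2.1 x.2.2.2 = 0 := by omega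
    have h3 : x.2.2.1 = x.2.2.2 := by
      unfold nd at h2
      ext <;> omega
    rw [h3] at hiff
    exact hiff Iff.rfl
  rw [← Finset.sum_fiberwise_of_maps_to hmap]
  have hterm : ∀ s ∈ Finset.Icc 1 L,
      ∑ x ∈ (QQ n L r O P D).filter (fun x => nd x.2.2.1 x.2.2.2 = s),
        (1 : ℝ) / (nd x.2.2.1 x.2.2.2 : ℝ) ≤ 16 * M r n := by
    intro s hs
    rw [Finset.mem_Icc] at hs
    have h1 : ∑ x ∈ (QQ n L r O P D).filter (fun x => nd x.2.2.1 x.2.2.2 = s),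
        (1 : ℝ) / (nd x.2.2.1 x.2.2.2 : ℝ) =
        (((QQ n L r O P D).filter (fun x => nd x.2.2.1 x.2.2.2 = s)).card : ℝ) * (1 / (s : ℝ)) := by
      rw [← nsmul_eq_mul, ← Finset.sum_const]
      refine Finset.sum_congr rfl fun x hx => ?_
      rw [(Finset.mem_filter.mp hx).2]
    rw [h1]
    have h2 : (((QQ n L r O P D).filter (fun x => nd x.2.2.1 x.2.2.2 = s)).card : ℝ) ≤
        8 * s * (2 * M r n) := by exact_mod_cast card_dist hT hs.1
    have hs0 : (0 : ℝ) < s := by exact_mod_cast hs.1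
    calc (((QQ n L r O P D).filter (fun x => nd x.2.2.1 x.2.2.2 = s)).card : ℝ) * (1 / (s : ℝ))
        ≤ (8 * s * (2 * M r n)) * (1 / (s : ℝ)) :=
          mul_le_mul_of_nonneg_right h2 (by positivity)
      _ = 16 * M r n := by field_simp; ring
  refine (Finset.sum_le_sum hterm).trans (le_of_eq ?_)
  rw [Finset.sum_const, Nat.card_Icc, nsmul_eq_mul]
  push_cast [Nat.add_sub_cancel]
  ring

theorem sum_lower (hr : 1 ≤ r) (hn : 128 * r ^ 2 ≤ n)
    (hT : ∀ R ∈ BL n L, RT R (O R) (P R) (D R) ∧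
      ∀ v ∈ R, v ≠ O R → 2 * (sub R (P R) (D R) v).card ≤ R.card) :
    ((BL n L).card : ℝ) * ((n : ℝ) ^ 2 / 4) ≤
      ∑ x ∈ QQ n L r O P D, (1 : ℝ) / (nd x.2.2.1 x.2.2.2 : ℝ) := by
  classical
  unfold QQ
  rw [Finset.sum_sigma, ← nsmul_eq_mul, ← Finset.sum_const]
  refine Finset.sum_le_sum fun R hR => ?_
  obtain ⟨T, -⟩ := hT R hR
  have hcard : R.card = n := (mem_AL.mp (mem_BL.mp hR).1).1
  have e1 : ∑ t ∈ (R ×ˢ R ×ˢ R).filter (fun t : (ℤ × ℤ) × (ℤ × ℤ) × (ℤ × ℤ) =>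
      t.1 ≠ O R ∧ r ≤ (sub R (P R) (D R) t.1).card ∧
        ¬ (t.2.1 ∈ sub R (P R) (D R) t.1 ↔ t.2.2 ∈ sub R (P R) (D R) t.1)),
        (1 : ℝ) / (nd t.2.1 t.2.2 : ℝ) =
      ∑ p ∈ R ×ˢ R, ((cut R (O R) (P R) (D R) r p.1 p.2).card : ℝ) *
        ((1 : ℝ) / (nd p.1 p.2 : ℝ)) := by
    rw [Finset.sum_filter, Finset.sum_product_right]
    refine Finset.sum_congr rfl fun p _ => ?_
    rw [← nsmul_eq_mul, ← Finset.sum_const]
    unfold cut
    rw [Finset.sum_filter]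
  refine le_trans ?_ (le_of_eq e1.symm)
  have h1 : ∑ p ∈ (R ×ˢ R).filter (fun p => 4 * r ≤ nd p.1 p.2), (1 / 2 : ℝ) ≤
      ∑ p ∈ R ×ˢ R, ((cut R (O R) (P R) (D R) r p.1 p.2).card : ℝ) *
        ((1 : ℝ) / (nd p.1 p.2 : ℝ)) := by
    refine le_trans (Finset.sum_le_sum fun p hp => ?_)
      (Finset.sum_le_sum_of_subset_of_nonneg (Finset.filter_subset _ _) fun p _ _ => by positivity)
    rw [Finset.mem_filter, Finset.mem_product] at hp
    have h2 := T.card_cut hp.1.1 hp.1.2 r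
    have h3 : (4 * r : ℝ) ≤ nd p.1 p.2 := by exact_mod_cast hp.2
    have h4 : ((nd p.1 p.2 : ℕ) : ℝ) ≤ (cut R (O R) (P R) (D R) r p.1 p.2).card + 2 * r := by
      exact_mod_cast h2
    have hr0 : (1 : ℝ) ≤ r := by exact_mod_cast hr
    have h5 : (0 : ℝ) < nd p.1 p.2 := by linarith
    rw [mul_one_div, le_div_iff₀ h5]
    linarith
  refine le_trans ?_ h1
  rw [Finset.sum_const, nsmul_eq_mul]
  have h6 := card_far (S := R) hr (by rw [hcard]; exact hn)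
  rw [hcard] at h6
  have h7 : (n : ℝ) ^ 2 ≤ 2 * ((R ×ˢ R).filter (fun p => 4 * r ≤ nd p.1 p.2)).card := by
    exact_mod_cast h6
  linarith

/-- **the splitting inequality** -/
theorem main_ineq {n L r : ℕ} (hr : 1 ≤ r) (hn : 128 * r ^ 2 ≤ n) :
    n * (AL n L).card ≤ 64 * L * M r n := by
  classical
  have hex : ∀ R ∈ BL n L, ∃ (o : ℤ × ℤ) (par : ℤ × ℤ → ℤ × ℤ) (d : ℤ × ℤ → ℕ),
      RT R o par d ∧ ∀ v ∈ R, v ≠ o → 2 * (sub R par d v).card ≤ R.card :=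
    fun R hR => (mem_AL.mp (mem_BL.mp hR).1).2.2.1.exists_centroid
  choose! O P D hT using hex
  have h1 := sum_lower (O := O) (P := P) (D := D) hr hn hT
  have h2 := sum_upper (r := r) (O := O) (P := P) (D := D) hT
  have h3 : (n : ℝ) ^ 2 * (BL n L).card ≤ 64 * L * M r n := by
    have := h1.trans h2
    linarith
  have h4 : n ^ 2 * (BL n L).card ≤ 64 * L * M r n := by exact_mod_cast h3
  refine le_trans ?_ h4
  have h5 := Nat.mul_le_mul_left n (card_AL_le n L)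
  refine h5.trans (le_of_eq ?_)
  ring

/-- the inequality without a bound on the diameter -/
theorem main_ineq' {n r : ℕ} (hr : 1 ≤ r) (hn : 128 * r ^ 2 ≤ n) : A n ≤ 64 * M r n := by
  have h1 := main_ineq (L := n) hr hn
  have hpos : 0 < n := by nlinarith
  have h2 : n * A n ≤ n * (64 * M r n) := by
    refine le_trans h1 (le_of_eq ?_)
    ring
  exact Nat.le_of_mul_le_mul_left h2 hpos

end Pool.Agent.helper68.Poly
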