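import Pool.Agent.helper68.Poly.Expo

set_option autoImplicit false

/-!
# Definitions used in the statements (helper68, MP_d35578_co)
-/

open Filter Topology

namespace Pool.Agent.helper68.Poly

/-- the number of fixed polyominoes with `n` cells: every fixed polyomino with `n` cells has exactly
`n` translates that contain the origin -/
noncomputable def polyCount (n : ℕ) : ℝ :=
  (({S : Finset (ℤ × ℤ) | S.card = n ∧ ((0 : ℤ), (0 : ℤ)) ∈ S ∧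
      ((SimpleGraph.fromRel (fun p q : ℤ × ℤ => |p.1 - q.1| + |p.2 - q.2| = 1)).induce
        (S : Set (ℤ × ℤ))).Connected} : Set (Finset (ℤ × ℤ))).ncard : ℝ) / (n : ℝ)

/-- the number of fixed polyominoes with `n` cells such that the positions of any two cells differ
by at most `x` in each coordinate -/
noncomputable def polyDiam (n : ℕ) (x : ℝ) : ℝ :=
  (({S : Finset (ℤ × ℤ) | S.card = n ∧ ((0 : ℤ), (0 : ℤ)) ∈ S ∧
      ((SimpleGraph.fromRel (fun p q : ℤ × ℤ => |p.1 - q.1| + |p.2 - q.2| = 1)).induce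
        (S : Set (ℤ × ℤ))).Connected ∧
      ∀ p ∈ S, ∀ q ∈ S, |(p.1 : ℝ) - q.1| ≤ x ∧ |(p.2 : ℝ) - q.2| ≤ x} :
        Set (Finset (ℤ × ℤ))).ncard : ℝ) / (n : ℝ)

theorem polyCount_eq : polyCount = B := by
  funext n
  unfold polyCount B A
  have h : {S : Finset (ℤ × ℤ) | S.card = n ∧ ((0 : ℤ), (0 : ℤ)) ∈ S ∧
      ((SimpleGraph.fromRel (fun p q : ℤ × ℤ => |p.1 - q.1| + |p.2 - q.2| = 1)).induce
        (S : Set (ℤ × ℤ))).Connected} = (AL n n : Set (Finset (ℤ × ℤ))) := by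
    ext S
    rw [Finset.mem_coe, mem_AL_self]
    exact Iff.rfl
  rw [h, Set.ncard_coe_finset]

theorem nd_le_iff {p q : ℤ × ℤ} {x : ℝ} (hx : 0 ≤ x) :
    (|(p.1 : ℝ) - q.1| ≤ x ∧ |(p.2 : ℝ) - q.2| ≤ x) ↔ nd p q ≤ ⌊x⌋₊ := by
  unfold nd
  rw [max_le_iff, Nat.le_floor_iff hx, Nat.le_floor_iff hx]
  have h1 : (((p.1 - q.1).natAbs : ℕ) : ℝ) = |(p.1 : ℝ) - q.1| := by
    rw [Nat.cast_natAbs]
    push_cast
    rfl
  have h2 : (((p.2 - q.2).natAbs : ℕ) : ℝ) = |(p.2 : ℝ) - q.2| := by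
    rw [Nat.cast_natAbs]
    push_cast
    rfl
  rw [h1, h2]

theorem polyDiam_eq {n : ℕ} {x : ℝ} (hx : 0 ≤ x) :
    polyDiam n x = ((AL n ⌊x⌋₊).card : ℝ) / n := by
  unfold polyDiam
  have h : {S : Finset (ℤ × ℤ) | S.card = n ∧ ((0 : ℤ), (0 : ℤ)) ∈ S ∧
      ((SimpleGraph.fromRel (fun p q : ℤ × ℤ => |p.1 - q.1| + |p.2 - q.2| = 1)).induce
        (S : Set (ℤ × ℤ))).Connected ∧
      ∀ p ∈ S, ∀ q ∈ S, |(p.1 : ℝ) - q.1| ≤ x ∧ |(p.2 : ℝ) - q.2| ≤ x} =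
        (AL n ⌊x⌋₊ : Set (Finset (ℤ × ℤ))) := by
    ext S
    rw [Finset.mem_coe, mem_AL]
    constructor
    · rintro ⟨h1, h2, h3, h4⟩
      exact ⟨h1, h2, h3, fun p hp q hq => (nd_le_iff hx).mp (h4 p hp q hq)⟩
    · rintro ⟨h1, h2, h3, h4⟩
      exact ⟨h1, h2, h3, fun p hp q hq => (nd_le_iff hx).mpr (h4 p hp q hq)⟩
  rw [h, Set.ncard_coe_finset]

end Pool.Agent.helper68.Poly
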