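import Mathlib

set_option autoImplicit false

/-!
# Rooted spanning trees of finite connected sets of cells (helper68, MP_d35578_co)
-/

open Finset

namespace Pool.Agent.helper68.Poly

/-- two cells share an edge -/
def Nb (p q : ℤ × ℤ) : Prop := |p.1 - q.1| + |p.2 - q.2| = 1

/-- the cell adjacency graph -/
def cellG : SimpleGraph (ℤ × ℤ) :=
  SimpleGraph.fromRel (fun p q : ℤ × ℤ => |p.1 - q.1| + |p.2 - q.2| = 1)

/-- edge-connected sets of cells -/
def Conn (S : Finset (ℤ × ℤ)) : Prop := (cellG.induce (S : Set (ℤ × ℤ))).Connected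

theorem Nb.symm {p q : ℤ × ℤ} (h : Nb p q) : Nb q p := by
  unfold Nb at *
  rw [abs_sub_comm q.1, abs_sub_comm q.2]; exact h

theorem Nb.ne {p q : ℤ × ℤ} (h : Nb p q) : p ≠ q := by
  rintro rfl
  simp [Nb] at h

theorem cellG_adj {p q : ℤ × ℤ} : cellG.Adj p q ↔ Nb p q := by
  unfold cellG
  rw [SimpleGraph.fromRel_adj]
  constructor
  · rintro ⟨_, h | h⟩
    · exact h
    · exact Nb.symm h
  · intro h
    exact ⟨h.ne, Or.inl h⟩

/-- sup distance -/
def nd (p q : ℤ × ℤ) : ℕ := max (p.1 - q.1).natAbs (p.2 - q.2).natAbs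

theorem nd_self (p : ℤ × ℤ) : nd p p = 0 := by simp [nd]

theorem nd_comm (p q : ℤ × ℤ) : nd p q = nd q p := by
  unfold nd
  rw [← Int.natAbs_neg (p.1 - q.1), ← Int.natAbs_neg (p.2 - q.2)]
  simp

theorem nd_nb {p q : ℤ × ℤ} (h : Nb p q) (x : ℤ × ℤ) : nd p x ≤ nd q x + 1 := by
  unfold nd Nb at *
  rcases abs_cases (p.1 - q.1) with ⟨h1, _⟩ | ⟨h1, _⟩ <;>
  rcases abs_cases (p.2 - q.2) with ⟨h2, _⟩ | ⟨h2, _⟩ <;> omega

/-- `S` is spanned by the tree with root `o`, parent function `par`, depth `d` -/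
structure RT (S : Finset (ℤ × ℤ)) (o : ℤ × ℤ) (par : ℤ × ℤ → ℤ × ℤ) (d : ℤ × ℤ → ℕ) : Prop where
  ho : o ∈ S
  h0 : d o = 0
  hp : ∀ v ∈ S, v ≠ o → par v ∈ S ∧ Nb (par v) v ∧ d v = d (par v) + 1

variable {S : Finset (ℤ × ℤ)} {o : ℤ × ℤ} {par : ℤ × ℤ → ℤ × ℤ} {d : ℤ × ℤ → ℕ}

theorem RT.eq_root (T : RT S o par d) {v : ℤ × ℤ} (hv : v ∈ S) (h : d v = 0) : v = o := by
  by_contra hne
  have := (T.hp v hv hne).2.2
  omega

theorem RT.ne_root (T : RT S o par d) {v : ℤ × ℤ} (h : d v ≠ 0) : v ≠ o := by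
  rintro rfl
  exact h T.h0

theorem RT.iter (T : RT S o par d) {u : ℤ × ℤ} (hu : u ∈ S) :
    ∀ i ≤ d u, par^[i] u ∈ S ∧ d (par^[i] u) = d u - i := by
  intro i
  induction i with
  | zero => intro _; simp [hu]
  | succ i ih =>
    intro hi
    obtain ⟨h1, h2⟩ := ih (by omega)
    have h3 : par^[i] u ≠ o := T.ne_root (by omega)
    obtain ⟨h4, _, h6⟩ := T.hp _ h1 h3
    rw [Function.iterate_succ_apply']
    exact ⟨h4, by omega⟩

theorem RT.iter_nb (T : RT S o par d) {u : ℤ × ℤ} (hu : u ∈ S) {i : ℕ} (hi : i < d u) :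
    Nb (par^[i + 1] u) (par^[i] u) := by
  obtain ⟨h1, h2⟩ := T.iter hu i hi.le
  have h3 : par^[i] u ≠ o := T.ne_root (by omega)
  rw [Function.iterate_succ_apply']
  exact (T.hp _ h1 h3).2.1

theorem RT.iter_root (T : RT S o par d) {u : ℤ × ℤ} (hu : u ∈ S) : par^[d u] u = o := by
  obtain ⟨h1, h2⟩ := T.iter hu (d u) le_rfl
  exact T.eq_root h1 (by omega)

/-- a tree spans a connected set -/
theorem RT.conn (T : RT S o par d) : Conn S := by
  have key : ∀ n : ℕ, ∀ u : (S : Set (ℤ × ℤ)), d u = n →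
      (cellG.induce (S : Set (ℤ × ℤ))).Reachable u ⟨o, T.ho⟩ := by
    intro n
    induction n with
    | zero =>
      intro u hu
      have : u = ⟨o, T.ho⟩ := Subtype.ext (T.eq_root u.2 hu)
      rw [this]
    | succ n ih =>
      intro u hu
      have h3 : (u : ℤ × ℤ) ≠ o := T.ne_root (by omega)
      obtain ⟨h4, h5, h6⟩ := T.hp _ u.2 h3
      have h7 := ih ⟨par u, h4⟩ (by simp only; omega)
      have h8 : (cellG.induce (S : Set (ℤ × ℤ))).Adj u ⟨par u, h4⟩ := by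
        rw [SimpleGraph.comap_adj]
        exact cellG_adj.mpr h5.symm
      exact h8.reachable.trans h7
  have : Nonempty (S : Set (ℤ × ℤ)) := ⟨⟨o, T.ho⟩⟩
  refine ⟨fun u v => ?_⟩
  exact (key _ u rfl).trans (key _ v rfl).symm

/-- a connected set is spanned by a tree with any given root -/
theorem Conn.exists_RT (h : Conn S) (ho : o ∈ S) :
    ∃ (par : ℤ × ℤ → ℤ × ℤ) (d : ℤ × ℤ → ℕ), RT S o par d := by
  classical
  set H := cellG.induce (S : Set (ℤ × ℤ)) with hH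
  have hcon : H.Connected := h
  set o' : (S : Set (ℤ × ℤ)) := ⟨o, ho⟩ with ho'
  have key : ∀ u : (S : Set (ℤ × ℤ)), u ≠ o' → ∃ v : (S : Set (ℤ × ℤ)), H.Adj u v ∧
      H.dist u o' = H.dist v o' + 1 := by
    intro u hu
    obtain ⟨p, hp⟩ := (hcon.preconnected u o').exists_walk_length_eq_dist
    cases p with
    | nil => exact absurd rfl hu
    | cons hadj p' =>
      rename_i v
      refine ⟨v, hadj, ?_⟩
      have h1 : H.dist v o' ≤ p'.length := SimpleGraph.dist_le p'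
      have h2 : H.dist u o' ≤ H.dist v o' + 1 := by
        obtain ⟨q, hq⟩ := (hcon.preconnected v o').exists_walk_length_eq_dist
        have := SimpleGraph.dist_le (SimpleGraph.Walk.cons hadj q)
        rw [SimpleGraph.Walk.length_cons, hq] at this
        exact this
      rw [SimpleGraph.Walk.length_cons] at hp
      omega
  choose! f hf using key
  refine ⟨fun u => if hu : u ∈ S then (f ⟨u, hu⟩ : ℤ × ℤ) else u,
    fun u => if hu : u ∈ S then H.dist ⟨u, hu⟩ o' else 0, ho, ?_, ?_⟩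
  · simp [ho, ho']
  · intro v hv hne
    have hne' : (⟨v, hv⟩ : (S : Set (ℤ × ℤ))) ≠ o' := fun e => hne (congrArg Subtype.val e)
    obtain ⟨h1, h2⟩ := hf ⟨v, hv⟩ hne'
    have h3 : ((f ⟨v, hv⟩ : (S : Set (ℤ × ℤ))) : ℤ × ℤ) ∈ S := (f ⟨v, hv⟩).2
    have h4 : Nb ((f ⟨v, hv⟩ : (S : Set (ℤ × ℤ))) : ℤ × ℤ) v := by
      rw [SimpleGraph.comap_adj] at h1
      exact (cellG_adj.mp h1).symm
    simp only [hv, dif_pos]
    refine ⟨h3, h4, ?_⟩
    rw [dif_pos h3]
    exact h2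

/-- the subtree at `v` -/
noncomputable def sub (S : Finset (ℤ × ℤ)) (par : ℤ × ℤ → ℤ × ℤ) (d : ℤ × ℤ → ℕ) (v : ℤ × ℤ) :
    Finset (ℤ × ℤ) := S.filter (fun u => d v ≤ d u ∧ par^[d u - d v] u = v)

theorem mem_sub {u v : ℤ × ℤ} : u ∈ sub S par d v ↔ u ∈ S ∧ d v ≤ d u ∧ par^[d u - d v] u = v := by
  simp [sub]

theorem self_mem_sub {v : ℤ × ℤ} (hv : v ∈ S) : v ∈ sub S par d v := by
  rw [mem_sub]; simp [hv]

theorem sub_subset (v : ℤ × ℤ) : sub S par d v ⊆ S := Finset.filter_subset _ _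

theorem RT.root_notMem_sub (T : RT S o par d) {v : ℤ × ℤ} (hv : v ∈ S) (hne : v ≠ o) :
    o ∉ sub S par d v := by
  rw [mem_sub]
  rintro ⟨_, h1, _⟩
  rw [T.h0] at h1
  exact hne (T.eq_root hv (by omega))

theorem RT.par_mem_sub (T : RT S o par d) {u v : ℤ × ℤ} (hu : u ∈ sub S par d v) (hne : u ≠ v) :
    u ≠ o ∧ par u ∈ sub S par d v := by
  rw [mem_sub] at hu
  obtain ⟨h1, h2, h3⟩ := hu
  have h4 : d v < d u := by
    rcases lt_or_eq_of_le h2 with h | h
    · exact h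
    · rw [h, Nat.sub_self] at h3
      exact absurd h3 hne
  have h5 : u ≠ o := T.ne_root (by omega)
  obtain ⟨h6, _, h8⟩ := T.hp u h1 h5
  refine ⟨h5, ?_⟩
  rw [mem_sub]
  refine ⟨h6, by omega, ?_⟩
  have h9 : d u - d v = (d (par u) - d v) + 1 := by omega
  rw [h9, Function.iterate_succ_apply] at h3
  exact h3

theorem RT.par_notMem_sub (T : RT S o par d) {u v : ℤ × ℤ} (hu : u ∈ S) (hne : u ≠ o)
    (h : u ∉ sub S par d v) : par u ∉ sub S par d v := by
  intro h'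
  apply h
  rw [mem_sub] at h' ⊢
  obtain ⟨_, h2, h3⟩ := h'
  obtain ⟨_, _, h8⟩ := T.hp u hu hne
  refine ⟨hu, by omega, ?_⟩
  have h9 : d u - d v = (d (par u) - d v) + 1 := by omega
  rw [h9, Function.iterate_succ_apply]
  exact h3

theorem RT.sub_inj (_T : RT S o par d) {v v' : ℤ × ℤ} (hv : v ∈ S) (hv' : v' ∈ S)
    (h : sub S par d v = sub S par d v') : v = v' := by
  have h1 : v ∈ sub S par d v' := h ▸ self_mem_sub hv
  have h2 : v' ∈ sub S par d v := h ▸ self_mem_sub hv'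
  rw [mem_sub] at h1 h2
  have h3 : d v = d v' := le_antisymm h2.2.1 h1.2.1
  have h4 := h1.2.2
  rw [h3, Nat.sub_self] at h4
  exact h4

/-- the subtree is a tree -/
theorem RT.sub_RT (T : RT S o par d) {v : ℤ × ℤ} (hv : v ∈ S) :
    RT (sub S par d v) v par (fun u => d u - d v) := by
  refine ⟨self_mem_sub hv, by simp, ?_⟩
  intro u hu hne
  obtain ⟨h1, h2⟩ := T.par_mem_sub hu hne
  have hu' := hu
  rw [mem_sub] at hu'
  obtain ⟨_, h4, h5⟩ := T.hp u hu'.1 h1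
  refine ⟨h2, h4, ?_⟩
  have h6 := (mem_sub.mp h2).2.1
  have h7 := (mem_sub.mp hu).2.1
  change d u - d v = d (par u) - d v + 1
  omega

/-- the rest is a tree -/
theorem RT.sdiff_RT (T : RT S o par d) {v : ℤ × ℤ} (hv : v ∈ S) (hne : v ≠ o) :
    RT (S \ sub S par d v) o par d := by
  refine ⟨Finset.mem_sdiff.mpr ⟨T.ho, T.root_notMem_sub hv hne⟩, T.h0, ?_⟩
  intro u hu huo
  rw [Finset.mem_sdiff] at hu
  obtain ⟨h3, h4, h5⟩ := T.hp u hu.1 huo
  exact ⟨Finset.mem_sdiff.mpr ⟨h3, T.par_notMem_sub hu.1 huo hu.2⟩, h4, h5⟩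

theorem RT.par_notMem_sub_self (T : RT S o par d) {v : ℤ × ℤ} (hv : v ∈ S) (hne : v ≠ o) :
    par v ∈ S \ sub S par d v := by
  obtain ⟨h3, h4, h5⟩ := T.hp v hv hne
  rw [Finset.mem_sdiff]
  refine ⟨h3, ?_⟩
  rw [mem_sub]
  rintro ⟨_, h, _⟩
  omega

/-- moving the root to a child -/
theorem RT.reroot (T : RT S o par d) {c : ℤ × ℤ} (hc : c ∈ S) (hco : c ≠ o) (hpc : par c = o) :
    ∃ (par' : ℤ × ℤ → ℤ × ℤ) (d' : ℤ × ℤ → ℕ), RT S c par' d' ∧
      ∑ u ∈ S, d' u + 2 * (sub S par d c).card = ∑ u ∈ S, d u + S.card := by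
  classical
  obtain ⟨_, hc4, hc5⟩ := T.hp c hc hco
  rw [hpc, T.h0] at hc5
  rw [hpc] at hc4
  set Q := sub S par d c with hQ
  have hd1 : ∀ u ∈ Q, 1 ≤ d u := by
    intro u hu
    have := (mem_sub.mp hu).2.1
    omega
  refine ⟨fun u => if u = o then c else par u, fun u => if u ∈ Q then d u - 1 else d u + 1,
    ⟨hc, ?_, ?_⟩, ?_⟩
  · have : c ∈ Q := self_mem_sub hc
    simp [this, hc5]
  · intro v hv hne
    by_cases hvo : v = o
    · subst hvo
      have h1 : v ∉ Q := T.root_notMem_sub hc hco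
      have h2 : c ∈ Q := self_mem_sub hc
      simp only [if_true, if_neg h1, if_pos h2]
      refine ⟨hc, hc4.symm, ?_⟩
      rw [T.h0, hc5]
    · obtain ⟨h3, h4, h5⟩ := T.hp v hv hvo
      simp only [if_neg hvo]
      refine ⟨h3, h4, ?_⟩
      by_cases hvQ : v ∈ Q
      · have h6 := (T.par_mem_sub hvQ hne).2
        rw [if_pos hvQ, if_pos h6]
        have := hd1 _ h6
        omega
      · have h6 := T.par_notMem_sub hv hvo hvQ
        rw [if_neg hvQ, if_neg h6]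
        omega
  · have hsub : Q ⊆ S := sub_subset c
    have e1 : ∑ u ∈ S, (if u ∈ Q then d u - 1 else d u + 1)
        = ∑ u ∈ Q, (d u - 1) + ∑ u ∈ S \ Q, (d u + 1) := by
      rw [← Finset.sum_sdiff hsub, add_comm]
      congr 1
      · exact Finset.sum_congr rfl fun u hu => if_pos hu
      · exact Finset.sum_congr rfl fun u hu => if_neg (Finset.mem_sdiff.mp hu).2
    have e2 : ∑ u ∈ Q, (d u - 1) + Q.card = ∑ u ∈ Q, d u := by
      rw [Finset.card_eq_sum_ones, ← Finset.sum_add_distrib]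
      exact Finset.sum_congr rfl fun u hu => Nat.sub_add_cancel (hd1 u hu)
    have e3 : ∑ u ∈ S \ Q, (d u + 1) = ∑ u ∈ S \ Q, d u + (S \ Q).card := by
      rw [Finset.card_eq_sum_ones, ← Finset.sum_add_distrib]
    have e4 : ∑ u ∈ S, d u = ∑ u ∈ Q, d u + ∑ u ∈ S \ Q, d u := by
      rw [← Finset.sum_sdiff hsub, add_comm]
    have e5 : (S \ Q).card + Q.card = S.card := Finset.card_sdiff_add_card_eq_card hsub
    rw [e1]
    omega

/-- a connected set has a spanning tree all of whose proper subtrees have at most half of the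
cells -/
theorem Conn.exists_centroid (h : Conn S) : ∃ (o : ℤ × ℤ) (par : ℤ × ℤ → ℤ × ℤ) (d : ℤ × ℤ → ℕ),
    RT S o par d ∧ ∀ v ∈ S, v ≠ o → 2 * (sub S par d v).card ≤ S.card := by
  classical
  have hne : S.Nonempty := by
    obtain ⟨⟨x, hx⟩⟩ := h.nonempty
    exact ⟨x, hx⟩
  obtain ⟨o₀, ho₀⟩ := hne
  obtain ⟨par₀, d₀, T₀⟩ := h.exists_RT ho₀
  have hex : ∃ N : ℕ, ∃ (o : ℤ × ℤ) (par : ℤ × ℤ → ℤ × ℤ) (d : ℤ × ℤ → ℕ),
      RT S o par d ∧ ∑ u ∈ S, d u = N := ⟨_, o₀, par₀, d₀, T₀, rfl⟩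
  obtain ⟨o, par, d, T, hN⟩ := Nat.find_spec hex
  refine ⟨o, par, d, T, ?_⟩
  have hchild : ∀ c ∈ S, c ≠ o → par c = o → 2 * (sub S par d c).card ≤ S.card := by
    intro c hc hco hpc
    obtain ⟨par', d', T', h'⟩ := T.reroot hc hco hpc
    have := Nat.find_min' hex ⟨c, par', d', T', rfl⟩
    omega
  intro v hv hvo
  have hdv : d v ≠ 0 := fun e => hvo (T.eq_root hv e)
  obtain ⟨h1, h2⟩ := T.iter hv (d v - 1) (by omega)
  set c := par^[d v - 1] v with hc
  have hdc : d c = 1 := by omega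
  have hco : c ≠ o := T.ne_root (by omega)
  have hpc : par c = o := by
    obtain ⟨h3, _, h5⟩ := T.hp c h1 hco
    exact T.eq_root h3 (by omega)
  refine le_trans ?_ (hchild c h1 hco hpc)
  apply Nat.mul_le_mul_left
  apply Finset.card_le_card
  intro u hu
  rw [mem_sub] at hu ⊢
  obtain ⟨hu1, hu2, hu3⟩ := hu
  refine ⟨hu1, by omega, ?_⟩
  have e : d u - d c = (d v - 1) + (d u - d v) := by omega
  rw [e, Function.iterate_add_apply, hu3]

/-- on the way from `w` to the root, the distance to `w` takes all values -/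
theorem RT.exists_iter_nd (T : RT S o par d) {w : ℤ × ℤ} (hw : w ∈ S) {j : ℕ} (hj : j ≤ nd o w) :
    ∃ i ≤ d w, nd (par^[i] w) w = j := by
  classical
  have hex : ∃ i, i ≤ d w ∧ j ≤ nd (par^[i] w) w := ⟨d w, le_rfl, by rw [T.iter_root hw]; exact hj⟩
  obtain ⟨h1, h2⟩ := Nat.find_spec hex
  refine ⟨Nat.find hex, h1, le_antisymm ?_ h2⟩
  rcases Nat.eq_zero_or_pos (Nat.find hex) with h0 | hpos
  · rw [h0]
    simp [nd_self]
  · obtain ⟨i, hi⟩ : ∃ i, Nat.find hex = i + 1 := ⟨Nat.find hex - 1, by omega⟩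
    have h3 : ¬ (i ≤ d w ∧ j ≤ nd (par^[i] w) w) := Nat.find_min hex (by omega)
    have h4 : nd (par^[i] w) w < j := by
      by_contra hc
      exact h3 ⟨by omega, by omega⟩
    have h5 := nd_nb (T.iter_nb hw (i := i) (by omega)) w
    rw [hi]
    omega

theorem RT.mem_sub_iter (T : RT S o par d) {w : ℤ × ℤ} (hw : w ∈ S) {i : ℕ} (hi : i ≤ d w) :
    w ∈ sub S par d (par^[i] w) := by
  obtain ⟨_, h2⟩ := T.iter hw i hi
  rw [mem_sub]
  refine ⟨hw, by omega, ?_⟩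
  congr 1
  omega

/-- many ancestors of `w` at distance in `[r, 2r)` -/
theorem RT.card_anc (T : RT S o par d) {w : ℤ × ℤ} (hw : w ∈ S) {r : ℕ} (hr : 2 * r ≤ nd o w) :
    r ≤ (S.filter fun v => v ≠ o ∧ w ∈ sub S par d v ∧ r ≤ nd v w ∧ nd v w < 2 * r).card := by
  classical
  have hex : ∀ j ∈ Finset.Ico r (2 * r), ∃ v ∈ S, v ≠ o ∧ w ∈ sub S par d v ∧ nd v w = j := by
    intro j hj
    rw [Finset.mem_Ico] at hj
    obtain ⟨i, hi, hi'⟩ := T.exists_iter_nd hw (j := j) (by omega)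
    refine ⟨par^[i] w, (T.iter hw i hi).1, ?_, T.mem_sub_iter hw hi, hi'⟩
    intro e
    rw [e] at hi'
    omega
  choose! g hg1 hg2 hg3 hg4 using hex
  have hcard : (Finset.Ico r (2 * r)).card = r := by simp; omega
  conv_lhs => rw [← hcard]
  apply Finset.card_le_card_of_injOn g
  · intro j hj
    have hj' : j ∈ Finset.Ico r (2 * r) := hj
    have := hg4 j hj'
    rw [Finset.mem_Ico] at hj'
    rw [Finset.coe_filter]
    exact ⟨hg1 j hj, hg2 j hj, hg3 j hj, by omega, by omega⟩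
  · intro j hj j' hj' e
    rw [← hg4 j hj, ← hg4 j' hj', e]

/-- a connected set containing two cells at distance `k` has at least `k+1` cells -/
theorem RT.card_ge (T : RT S o par d) {w : ℤ × ℤ} (hw : w ∈ S) : nd o w + 1 ≤ S.card := by
  classical
  have hex : ∀ j ∈ Finset.range (nd o w + 1), ∃ v ∈ S, nd v w = j := by
    intro j hj
    rw [Finset.mem_range] at hj
    obtain ⟨i, hi, hi'⟩ := T.exists_iter_nd hw (j := j) (by omega)
    exact ⟨par^[i] w, (T.iter hw i hi).1, hi'⟩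
  choose! g hg1 hg2 using hex
  have hcard : (Finset.range (nd o w + 1)).card = nd o w + 1 := by simp
  conv_lhs => rw [← hcard]
  apply Finset.card_le_card_of_injOn g
  · intro j hj
    exact hg1 j hj
  · intro j hj j' hj' e
    rw [← hg2 j hj, ← hg2 j' hj', e]

end Pool.Agent.helper68.Poly
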